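import Pool.Agent.W_c2305b_h74.Order

/-! MP_c2305b_co (R3): the disc. `LeMax`, `StrictMax`, `RigidLim` for the closed unit disc with
`t6 = 3 sqrt 3 / 2`.  The bound is spectral: no convexity is used for it. -/

namespace C2305b.Rig.O74

open C2305b.Rig

noncomputable section

/-- the spectral identity for sextuples, `r = sqrt 3` -/
lemma hex_id (r x0 y0 x1 y1 x2 y2 x3 y3 x4 y4 x5 y5 : ℝ) (hr : r ^ 2 = 3) :
    r / 2 * ((x0 ^ 2 + y0 ^ 2) + (x1 ^ 2 + y1 ^ 2) + (x2 ^ 2 + y2 ^ 2) + (x3 ^ 2 + y3 ^ 2) +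
      (x4 ^ 2 + y4 ^ 2) + (x5 ^ 2 + y5 ^ 2)) -
      ((x0 * y1 - y0 * x1) + (x1 * y2 - y1 * x2) + (x2 * y3 - y2 * x3) +
        (x3 * y4 - y3 * x4) + (x4 * y5 - y4 * x5) + (x5 * y0 - y5 * x0)) =
    r / 12 * (((x1 - x5 + r * y0) ^ 2 + (y1 - y5 - r * x0) ^ 2) +
      ((x2 - x0 + r * y1) ^ 2 + (y2 - y0 - r * x1) ^ 2) +
      ((x3 - x1 + r * y2) ^ 2 + (y3 - y1 - r * x2) ^ 2) +
      ((x4 - x2 + r * y3) ^ 2 + (y4 - y2 - r * x3) ^ 2) +
      ((x5 - x3 + r * y4) ^ 2 + (y5 - y3 - r * x4) ^ 2) +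
      ((x0 - x4 + r * y5) ^ 2 + (y0 - y4 - r * x5) ^ 2) +
      ((x0 + x2 + x4) ^ 2 + (y0 + y2 + y4) ^ 2) +
      ((x1 + x3 + x5) ^ 2 + (y1 + y3 + y5) ^ 2)) := by
  linear_combination (((x0 * y1 - y0 * x1) + (x1 * y2 - y1 * x2) + (x2 * y3 - y2 * x3) +
        (x3 * y4 - y3 * x4) + (x4 * y5 - y4 * x5) + (x5 * y0 - y5 * x0)) / 3 -
      r / 12 * ((x0 ^ 2 + y0 ^ 2) + (x1 ^ 2 + y1 ^ 2) + (x2 ^ 2 + y2 ^ 2) + (x3 ^ 2 + y3 ^ 2) +
      (x4 ^ 2 + y4 ^ 2) + (x5 ^ 2 + y5 ^ 2))) * hr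

lemma ar6_coord (p : Fin 6 → Pl) : 2 * ar6 p =
    (p 0 0 * p 1 1 - p 0 1 * p 1 0) + (p 1 0 * p 2 1 - p 1 1 * p 2 0) +
    (p 2 0 * p 3 1 - p 2 1 * p 3 0) + (p 3 0 * p 4 1 - p 3 1 * p 4 0) +
    (p 4 0 * p 5 1 - p 4 1 * p 5 0) + (p 5 0 * p 0 1 - p 5 1 * p 0 0) := by
  simp only [ar6, Fin.sum_univ_six]
  have e0 : (0 : Fin 6) + 1 = 1 := by decide
  have e1 : (1 : Fin 6) + 1 = 2 := by decide
  have e2 : (2 : Fin 6) + 1 = 3 := by decide
  have e3 : (3 : Fin 6) + 1 = 4 := by decide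
  have e4 : (4 : Fin 6) + 1 = 5 := by decide
  have e5 : (5 : Fin 6) + 1 = 0 := by decide
  rw [e0, e1, e2, e3, e4, e5]
  simp only [cr]
  ring

/-- squared norm of a point -/
def nq (v : Pl) : ℝ := v 0 ^ 2 + v 1 ^ 2

lemma nq_eq (v : Pl) : nq v = ‖v‖ ^ 2 := by
  rw [EuclideanSpace.norm_sq_eq]
  simp [nq, Fin.sum_univ_two]

lemma nq_le_one {v : Pl} : nq v ≤ 1 ↔ v ∈ Metric.closedBall (0 : Pl) 1 := by
  rw [mem_closedBall_zero_iff, nq_eq]
  constructor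
  · intro h
    nlinarith [norm_nonneg v]
  · intro h
    nlinarith [norm_nonneg v]

lemma nq_Am {a b : ℝ} (hab : a ^ 2 + b ^ 2 = 1) (v : Pl) : nq (Am 1 a (-b) v) = nq v := by
  have h : nq (Am 1 a (-b) v) = (a ^ 2 + b ^ 2) * nq v := by
    simp [nq, Am]; ring
  rw [h, hab, one_mul]

lemma nq_Jt (t : Bool) (v : Pl) : nq (Jt t v) = nq v := by
  cases t
  · simp [Jt]
  · simp [nq, Jt]

/-- the local bodies of the disc are the disc -/
lemma inBody_disc {a b : ℝ} (hab : a ^ 2 + b ^ 2 = 1) (t : Bool) (v : Pl) :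
    InBody (Metric.closedBall (0 : Pl) 1) a b t v ↔ nq v ≤ 1 := by
  rw [InBody, ← nq_le_one, nq_Am hab, nq_Jt]

/-- the area bound (any sextuple of points of the disc) -/
theorem ar6_le_disc (p : Fin 6 → Pl) (hp : ∀ k, nq (p k) ≤ 1) : ar6 p ≤ 3 * √3 / 2 := by
  have hr : (√3 : ℝ) ^ 2 = 3 := Real.sq_sqrt (by norm_num)
  have hr0 : (0 : ℝ) < √3 := Real.sqrt_pos.2 (by norm_num)
  have hid := hex_id (√3) (p 0 0) (p 0 1) (p 1 0) (p 1 1) (p 2 0) (p 2 1) (p 3 0) (p 3 1)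
    (p 4 0) (p 4 1) (p 5 0) (p 5 1) hr
  rw [← ar6_coord p] at hid
  have h0 := hp 0
  have h1 := hp 1
  have h2 := hp 2
  have h3 := hp 3
  have h4 := hp 4
  have h5 := hp 5
  simp only [nq] at h0 h1 h2 h3 h4 h5
  have hnn : 0 ≤ √3 / 2 * ((p 0 0 ^ 2 + p 0 1 ^ 2) + (p 1 0 ^ 2 + p 1 1 ^ 2) +
      (p 2 0 ^ 2 + p 2 1 ^ 2) + (p 3 0 ^ 2 + p 3 1 ^ 2) +
      (p 4 0 ^ 2 + p 4 1 ^ 2) + (p 5 0 ^ 2 + p 5 1 ^ 2)) - 2 * ar6 p := by
    rw [hid]; positivity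
  have hN : √3 / 2 * ((p 0 0 ^ 2 + p 0 1 ^ 2) + (p 1 0 ^ 2 + p 1 1 ^ 2) +
      (p 2 0 ^ 2 + p 2 1 ^ 2) + (p 3 0 ^ 2 + p 3 1 ^ 2) +
      (p 4 0 ^ 2 + p 4 1 ^ 2) + (p 5 0 ^ 2 + p 5 1 ^ 2)) ≤ √3 / 2 * 6 :=
    mul_le_mul_of_nonneg_left (by linarith) (by positivity)
  linarith

theorem leMax_disc : LeMax (Metric.closedBall (0 : Pl) 1) (3 * √3 / 2) :=
  fun q _ hq => ar6_le_disc q fun k => nq_le_one.2 (hq k)

/-- the equality case: a regular hexagon (edges at the corner `0`) -/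
theorem hex_eq (p : Fin 6 → Pl) (hc : Conv6 p) (hp : ∀ k, nq (p k) ≤ 1)
    (ha : ar6 p = 3 * √3 / 2) :
    nq (p 1 - p 0) = 1 ∧ nq (p 5 - p 0) = 1 ∧ nq ((p 1 - p 0) + (p 5 - p 0)) = 1 ∧
      cr (p 1 - p 0) (p 5 - p 0) = √3 / 2 := by
  have hr : (√3 : ℝ) ^ 2 = 3 := Real.sq_sqrt (by norm_num)
  have hr0 : (0 : ℝ) < √3 := Real.sqrt_pos.2 (by norm_num)
  have hid := hex_id (√3) (p 0 0) (p 0 1) (p 1 0) (p 1 1) (p 2 0) (p 2 1) (p 3 0) (p 3 1)
    (p 4 0) (p 4 1) (p 5 0) (p 5 1) hr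
  rw [← ar6_coord p, ha] at hid
  have h0 := hp 0
  have h1 := hp 1
  have h2 := hp 2
  have h3 := hp 3
  have h4 := hp 4
  have h5 := hp 5
  have h024 := hc 0 2 4 (by decide) (by decide)
  simp only [nq] at h0 h1 h2 h3 h4 h5
  simp only [nq, cr, PiLp.sub_apply, PiLp.add_apply] at h024 ⊢
  set r := √3 with hrdef
  generalize p 0 0 = x0 at *
  generalize p 0 1 = y0 at *
  generalize p 1 0 = x1 at *
  generalize p 1 1 = y1 at *
  generalize p 2 0 = x2 at *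
  generalize p 2 1 = y2 at *
  generalize p 3 0 = x3 at *
  generalize p 3 1 = y3 at *
  generalize p 4 0 = x4 at *
  generalize p 4 1 = y4 at *
  generalize p 5 0 = x5 at *
  generalize p 5 1 = y5 at *
  have hN : r / 2 * ((x0 ^ 2 + y0 ^ 2) + (x1 ^ 2 + y1 ^ 2) + (x2 ^ 2 + y2 ^ 2) +
      (x3 ^ 2 + y3 ^ 2) + (x4 ^ 2 + y4 ^ 2) + (x5 ^ 2 + y5 ^ 2)) ≤ r / 2 * 6 :=
    mul_le_mul_of_nonneg_left (by linarith) (by positivity)
  have hle : r / 12 * (((x1 - x5 + r * y0) ^ 2 + (y1 - y5 - r * x0) ^ 2) +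
      ((x2 - x0 + r * y1) ^ 2 + (y2 - y0 - r * x1) ^ 2) +
      ((x3 - x1 + r * y2) ^ 2 + (y3 - y1 - r * x2) ^ 2) +
      ((x4 - x2 + r * y3) ^ 2 + (y4 - y2 - r * x3) ^ 2) +
      ((x5 - x3 + r * y4) ^ 2 + (y5 - y3 - r * x4) ^ 2) +
      ((x0 - x4 + r * y5) ^ 2 + (y0 - y4 - r * x5) ^ 2) +
      ((x0 + x2 + x4) ^ 2 + (y0 + y2 + y4) ^ 2) +
      ((x1 + x3 + x5) ^ 2 + (y1 + y3 + y5) ^ 2)) ≤ 0 := by
    rw [← hid]; linarith
  have hle' : ((x1 - x5 + r * y0) ^ 2 + (y1 - y5 - r * x0) ^ 2) +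
      ((x2 - x0 + r * y1) ^ 2 + (y2 - y0 - r * x1) ^ 2) +
      ((x3 - x1 + r * y2) ^ 2 + (y3 - y1 - r * x2) ^ 2) +
      ((x4 - x2 + r * y3) ^ 2 + (y4 - y2 - r * x3) ^ 2) +
      ((x5 - x3 + r * y4) ^ 2 + (y5 - y3 - r * x4) ^ 2) +
      ((x0 - x4 + r * y5) ^ 2 + (y0 - y4 - r * x5) ^ 2) +
      ((x0 + x2 + x4) ^ 2 + (y0 + y2 + y4) ^ 2) +
      ((x1 + x3 + x5) ^ 2 + (y1 + y3 + y5) ^ 2) ≤ 0 := by
    by_contra hh
    have := mul_pos (show (0 : ℝ) < r / 12 by positivity) (not_le.1 hh)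
    linarith
  have hge : r / 2 * 6 ≤ r / 2 * ((x0 ^ 2 + y0 ^ 2) + (x1 ^ 2 + y1 ^ 2) + (x2 ^ 2 + y2 ^ 2) +
      (x3 ^ 2 + y3 ^ 2) + (x4 ^ 2 + y4 ^ 2) + (x5 ^ 2 + y5 ^ 2)) := by
    have : 0 ≤ r / 12 * (((x1 - x5 + r * y0) ^ 2 + (y1 - y5 - r * x0) ^ 2) +
      ((x2 - x0 + r * y1) ^ 2 + (y2 - y0 - r * x1) ^ 2) +
      ((x3 - x1 + r * y2) ^ 2 + (y3 - y1 - r * x2) ^ 2) +
      ((x4 - x2 + r * y3) ^ 2 + (y4 - y2 - r * x3) ^ 2) +
      ((x5 - x3 + r * y4) ^ 2 + (y5 - y3 - r * x4) ^ 2) +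
      ((x0 - x4 + r * y5) ^ 2 + (y0 - y4 - r * x5) ^ 2) +
      ((x0 + x2 + x4) ^ 2 + (y0 + y2 + y4) ^ 2) +
      ((x1 + x3 + x5) ^ 2 + (y1 + y3 + y5) ^ 2)) := by positivity
    linarith
  have hge' := le_of_mul_le_mul_left hge (by positivity)
  have n0 : x0 ^ 2 + y0 ^ 2 = 1 := by linarith
  have n1 : x1 ^ 2 + y1 ^ 2 = 1 := by linarith
  have n5 : x5 ^ 2 + y5 ^ 2 = 1 := by linarith
  have s1 := sq_nonneg (x1 - x5 + r * y0)
  have s2 := sq_nonneg (y1 - y5 - r * x0)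
  have s3 := sq_nonneg (x2 - x0 + r * y1)
  have s4 := sq_nonneg (y2 - y0 - r * x1)
  have s5 := sq_nonneg (x3 - x1 + r * y2)
  have s6 := sq_nonneg (y3 - y1 - r * x2)
  have s7 := sq_nonneg (x4 - x2 + r * y3)
  have s8 := sq_nonneg (y4 - y2 - r * x3)
  have s9 := sq_nonneg (x5 - x3 + r * y4)
  have s10 := sq_nonneg (y5 - y3 - r * x4)
  have s11 := sq_nonneg (x0 - x4 + r * y5)
  have s12 := sq_nonneg (y0 - y4 - r * x5)
  have s13 := sq_nonneg (x0 + x2 + x4)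
  have s14 := sq_nonneg (y0 + y2 + y4)
  have s15 := sq_nonneg (x1 + x3 + x5)
  have s16 := sq_nonneg (y1 + y3 + y5)
  have a1 : x1 - x5 + r * y0 = 0 := pow_eq_zero_iff (two_ne_zero) |>.1 (by linarith)
  have a2 : y1 - y5 - r * x0 = 0 := pow_eq_zero_iff (two_ne_zero) |>.1 (by linarith)
  have a3 : x2 - x0 + r * y1 = 0 := pow_eq_zero_iff (two_ne_zero) |>.1 (by linarith)
  have a4 : y2 - y0 - r * x1 = 0 := pow_eq_zero_iff (two_ne_zero) |>.1 (by linarith)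
  have a11 : x0 - x4 + r * y5 = 0 := pow_eq_zero_iff (two_ne_zero) |>.1 (by linarith)
  have a12 : y0 - y4 - r * x5 = 0 := pow_eq_zero_iff (two_ne_zero) |>.1 (by linarith)
  clear s1 s2 s3 s4 s5 s6 s7 s8 s9 s10 s11 s12 s13 s14 s15 s16 hle' hle hge hge' hN hid
  -- the cross products at the corner 0
  have ex1 : x1 = x5 - r * y0 := by linarith
  have ey1 : y1 = y5 + r * x0 := by linarith
  have c05 : x0 * y5 - y0 * x5 = - r / 2 := by
    have : 2 * r * (x0 * y5 - y0 * x5) = - 3 := by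
      have e := n1
      rw [ex1, ey1] at e
      linear_combination e - n5 - r ^ 2 * n0 - hr
    have h2 : 2 * r * (x0 * y5 - y0 * x5 + r / 2) = 0 := by linear_combination this + hr
    rcases mul_eq_zero.1 h2 with h | h
    · linarith
    · linarith
  have c01 : x0 * y1 - y0 * x1 = r / 2 := by
    rw [ex1, ey1]
    linear_combination c05 + r * n0
  have d1 : x0 * x1 + y0 * y1 = x0 * x5 + y0 * y5 := by
    rw [ex1, ey1]; ring
  set c := x0 * x1 + y0 * y1 with hcdef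
  have f1 : x1 = c * x0 - r / 2 * y0 := by
    rw [hcdef, ← c01]; linear_combination - x1 * n0
  have f2 : y1 = c * y0 + r / 2 * x0 := by
    rw [hcdef, ← c01]; linear_combination - y1 * n0
  have f3 : x5 = c * x0 + r / 2 * y0 := by
    have : r / 2 = - (x0 * y5 - y0 * x5) := by linarith
    rw [d1, this]; linear_combination - x5 * n0
  have f4 : y5 = c * y0 - r / 2 * x0 := by
    have : r / 2 = - (x0 * y5 - y0 * x5) := by linarith
    rw [d1, this]; linear_combination - y5 * n0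
  have hc2 : c ^ 2 = 1 / 4 := by
    have e := n1
    rw [f1, f2] at e
    linear_combination e - (c ^ 2 + r ^ 2 / 4) * n0 - hr / 4
  have hcr : 0 ≤ 3 * r * c := by
    have e : (x2 - x0) * (y4 - y0) - (y2 - y0) * (x4 - x0) = 3 * r * c := by
      have g1 : x2 - x0 = - r * y1 := by linarith
      have g2 : y2 - y0 = r * x1 := by linarith
      have g3 : x4 - x0 = r * y5 := by linarith
      have g4 : y4 - y0 = - r * x5 := by linarith
      rw [g1, g2, g3, g4, f1, f2, f3, f4]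
      linear_combination (r ^ 3 * c) * n0 + (r * c) * hr
    linarith
  have hc0 : 0 ≤ c := by
    have h3 : (0 : ℝ) < 3 * r := by positivity
    exact nonneg_of_mul_nonneg_right hcr h3
  have hc : c = 1 / 2 := by nlinarith
  rw [hc] at f1 f2 f3 f4
  refine ⟨?_, ?_, ?_, ?_⟩
  · rw [f1, f2]; linear_combination (1 / 4 + r ^ 2 / 4) * n0 + hr / 4
  · rw [f3, f4]; linear_combination (1 / 4 + r ^ 2 / 4) * n0 + hr / 4
  · rw [f1, f2, f3, f4]; linear_combination n0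
  · rw [f1, f2, f3, f4]; linear_combination (r / 2) * n0

theorem strictMax_disc : StrictMax (Metric.closedBall (0 : Pl) 1) (3 * √3 / 2) := by
  intro a b t q hab hc hq ha
  rw [(hex_eq q hc (fun k => (inBody_disc hab t _).1 (hq k)) ha).2.2.2]
  positivity

/-- three shears of regular corners around a point are equal -/
lemma three_shears (e : Fin 3 → ℝ) (u w : Fin 3 → Pl) (hu : ∀ i, nq (u i) = 1)
    (hw : ∀ i, nq (w i) = 1) (huw : ∀ i, nq (u i + w i) = 1)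
    (hcr : ∀ i, cr (u i) (w i) = √3 / 2)
    (hs : ∀ i, Sh (e i) (w i) = Sh (e (i + 1)) (u (i + 1))) (i j : Fin 3) : e i = e j := by
  have hr : (√3 : ℝ) ^ 2 = 3 := Real.sq_sqrt (by norm_num)
  have hr0 : (0 : ℝ) < √3 := Real.sqrt_pos.2 (by norm_num)
  -- the three rays
  obtain ⟨R, hR⟩ : ∃ R : Fin 3 → Pl, ∀ i, R i = Sh (e i) (u i) := ⟨_, fun _ => rfl⟩
  have hR' : ∀ i, Sh (e i) (w i) = R (i + 1) := fun i => by rw [hs, hR]
  have hRR : ∀ i, cr (R i) (R (i + 1)) = √3 / 2 := fun i => by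
    rw [← hR', hR, cr_Sh, hcr]
  have e01 : (0 : Fin 3) + 1 = 1 := by decide
  have e12 : (1 : Fin 3) + 1 = 2 := by decide
  have e20 : (2 : Fin 3) + 1 = 0 := by decide
  have h01 := hRR 0
  have h12 := hRR 1
  have h20 := hRR 2
  rw [e01] at h01
  rw [e12] at h12
  rw [e20] at h20
  have hsum : R 0 + R 1 + R 2 = 0 := by
    have k0 : cr (R 0) (R 0 + R 1 + R 2) = 0 := by
      rw [cr_add_right, cr_add_right, cr_self, h01, cr_anti (R 0) (R 2), h20]; ring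
    have k1 : cr (R 1) (R 0 + R 1 + R 2) = 0 := by
      rw [cr_add_right, cr_add_right, cr_self, h12, cr_anti (R 1) (R 0), h01]; ring
    have hne : R 0 ≠ 0 := by
      intro h; rw [h, cr_zero_left] at h01; linarith
    obtain ⟨m, hm⟩ := exists_smul_of_cr_zero hne k0
    rw [hm, cr_smul_right, cr_anti, h01] at k1
    have : m = 0 := by nlinarith
    rw [hm, this, zero_smul]
  -- the form of the frame `i` at a vector
  obtain ⟨Q, hQ⟩ : ∃ Q : ℝ → Pl → ℝ, ∀ f v, Q f v = v 0 ^ 2 + (v 1 - f * v 0) ^ 2 :=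
    ⟨_, fun _ _ => rfl⟩
  have hQS : ∀ f v, Q f (Sh f v) = nq v := by
    intro f v
    simp [hQ, Sh, nq]
  have hQn : ∀ f v, Q f (-v) = Q f v := by
    intro f v
    simp only [hQ, PiLp.neg_apply]; ring
  have q1 : ∀ i, Q (e i) (R i) = 1 := fun i => by rw [hR, hQS, hu]
  have q2 : ∀ i, Q (e i) (R (i + 1)) = 1 := fun i => by rw [← hR', hQS, hw]
  have q3 : ∀ i, Q (e i) (R i + R (i + 1)) = 1 := fun i => by
    rw [← hR', hR, ← Sh_add, hQS, huw]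
  have s0 : R 0 + R 1 = - R 2 := eq_neg_of_add_eq_zero_left hsum
  have s1 : R 1 + R 2 = - R 0 := by
    rw [eq_neg_iff_add_eq_zero, ← hsum]; abel
  have s2 : R 2 + R 0 = - R 1 := by
    rw [eq_neg_iff_add_eq_zero, ← hsum]; abel
  have hall : ∀ i m, Q (e i) (R m) = 1 := by
    intro i m
    have a0 := q1 0
    have a1 := q1 1
    have a2 := q1 2
    have b0 := q2 0
    have b1 := q2 1
    have b2 := q2 2
    have c0 := q3 0
    have c1 := q3 1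
    have c2 := q3 2
    rw [e01] at b0 c0
    rw [e12] at b1 c1
    rw [e20] at b2 c2
    rw [s0, hQn] at c0
    rw [s1, hQn] at c1
    rw [s2, hQn] at c2
    fin_cases i <;> fin_cases m <;> assumption
  by_contra hne
  have hm : ∀ m, R m 0 = 0 ∨ 2 * R m 1 = (e i + e j) * R m 0 := by
    intro m
    have h1 := hall i m
    have h2 := hall j m
    rw [hQ] at h1 h2
    have h3 : (e j - e i) * (R m 0 * (2 * R m 1 - (e i + e j) * R m 0)) = 0 := by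
      linear_combination h1 - h2
    rcases mul_eq_zero.1 h3 with h | h
    · exact absurd (by linarith) hne
    · rcases mul_eq_zero.1 h with h | h
      · exact Or.inl h
      · exact Or.inr (by linarith)
  simp only [cr] at h01 h12 h20
  rcases hm 0 with a | a <;> rcases hm 1 with b | b <;> rcases hm 2 with c | c
  · rw [a, b] at h01; linarith
  · rw [a, b] at h01; linarith
  · rw [c, a] at h20; linarith
  · have : R 1 0 * R 2 1 - R 1 1 * R 2 0 = 0 := by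
      linear_combination R 1 0 / 2 * c - R 2 0 / 2 * b
    linarith
  · rw [b, c] at h12; linarith
  · have : R 2 0 * R 0 1 - R 2 1 * R 0 0 = 0 := by
      linear_combination R 2 0 / 2 * a - R 0 0 / 2 * c
    linarith
  · have : R 0 0 * R 1 1 - R 0 1 * R 1 0 = 0 := by
      linear_combination R 0 0 / 2 * b - R 1 0 / 2 * a
    linarith
  · have : R 0 0 * R 1 1 - R 0 1 * R 1 0 = 0 := by
      linear_combination R 0 0 / 2 * b - R 1 0 / 2 * a
    linarith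

theorem rigidLim_disc : RigidLim (Metric.closedBall (0 : Pl) 1) (3 * √3 / 2) := by
  refine ⟨0, le_rfl, fun a b hab => ⟨0, by simp, ?_⟩⟩
  intro t e q hc hq ha hs i j
  have H := fun i => hex_eq (q i) (hc i) (fun k => (inBody_disc hab (t i) _).1 (hq i k)) (ha i)
  have := three_shears e (fun i => q i 1 - q i 0) (fun i => q i 5 - q i 0)
    (fun i => (H i).1) (fun i => (H i).2.1) (fun i => (H i).2.2.1) (fun i => (H i).2.2.2)
    hs i j
  simp [this]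

end

end C2305b.Rig.O74
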