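import Pool.Agent.W_c2305b_h89.Defs

/-! MP_c2305b_co (R4): the weak convex cyclic order from the edge inequalities, and the
invariance of `Conv6`, `ar6` under frames, translations, shifts and reflections. -/

namespace C2305b.Rig.O74

open C2305b.Rig

noncomputable section

/-! ### the cross product -/

lemma cr_add_left (u v w : Pl) : cr (u + v) w = cr u w + cr v w := by
  simp only [cr, PiLp.add_apply]; ring

lemma cr_add_right (u v w : Pl) : cr u (v + w) = cr u v + cr u w := by
  simp only [cr, PiLp.add_apply]; ring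

lemma cr_sub_left (u v w : Pl) : cr (u - v) w = cr u w - cr v w := by
  simp only [cr, PiLp.sub_apply]; ring

lemma cr_sub_right (u v w : Pl) : cr u (v - w) = cr u v - cr u w := by
  simp only [cr, PiLp.sub_apply]; ring

lemma cr_smul_left (a : ℝ) (u v : Pl) : cr (a • u) v = a * cr u v := by
  simp only [cr, PiLp.smul_apply, smul_eq_mul]; ring

lemma cr_smul_right (a : ℝ) (u v : Pl) : cr u (a • v) = a * cr u v := by
  simp only [cr, PiLp.smul_apply, smul_eq_mul]; ring

lemma cr_neg_left (u v : Pl) : cr (-u) v = - cr u v := by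
  simp only [cr, PiLp.neg_apply]; ring

lemma cr_neg_right (u v : Pl) : cr u (-v) = - cr u v := by
  simp only [cr, PiLp.neg_apply]; ring

lemma cr_anti (u v : Pl) : cr u v = - cr v u := by
  simp only [cr]; ring

lemma cr_self (u : Pl) : cr u u = 0 := by
  simp only [cr]; ring

lemma cr_zero_left (v : Pl) : cr 0 v = 0 := by
  simp [cr]

lemma cr_zero_right (v : Pl) : cr v 0 = 0 := by
  simp [cr]

/-- Pluecker relation -/
lemma cr_pluecker (e a b c : Pl) :
    cr e b * cr a c = cr a b * cr e c + cr e a * cr b c := by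
  simp only [cr]; ring

lemma pl_ext {u v : Pl} (h0 : u 0 = v 0) (h1 : u 1 = v 1) : u = v := by
  ext i; fin_cases i
  · exact h0
  · exact h1

/-- parallel vectors -/
lemma exists_smul_of_cr_zero {u v : Pl} (hu : u ≠ 0) (h : cr u v = 0) : ∃ a : ℝ, v = a • u := by
  have h' : u 0 * v 1 = u 1 * v 0 := by
    have : u 0 * v 1 - u 1 * v 0 = 0 := h
    linarith
  by_cases h0 : u 0 = 0
  · have h1 : u 1 ≠ 0 := by
      intro h1
      exact hu (pl_ext (by simpa using h0) (by simpa using h1))
    refine ⟨v 1 / u 1, pl_ext ?_ ?_⟩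
    · rw [h0, zero_mul] at h'
      have : v 0 = 0 := by
        rcases mul_eq_zero.1 h'.symm with h | h
        · exact absurd h h1
        · exact h
      simp [this, h0]
    · simp [h1]
  · refine ⟨v 0 / u 0, pl_ext ?_ ?_⟩
    · simp [h0]
    · simp only [PiLp.smul_apply, smul_eq_mul]
      rw [div_mul_eq_mul_div, eq_div_iff h0]
      linarith

/-! ### the order lemma -/

/-- Directions `d 1, ..., d n` in the closed half plane left of `d 1`, consecutive ones in
weak counterclockwise order, never opposite: then all pairs are in weak counterclockwise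
order. -/
theorem order_seq (d : ℕ → Pl) (n : ℕ) (hne : ∀ a, 1 ≤ a → a ≤ n → d a ≠ 0)
    (h1 : ∀ a, 1 ≤ a → a ≤ n → 0 ≤ cr (d 1) (d a))
    (hs : ∀ a, 1 ≤ a → a + 1 ≤ n → 0 ≤ cr (d a) (d (a + 1)))
    (ho : ∀ a, 1 ≤ a → a + 1 ≤ n → (0 : Pl) ∉ openSegment ℝ (d a) (d (a + 1)))
    (a b : ℕ) (ha : 1 ≤ a) (hab : a ≤ b) (hb : b ≤ n) : 0 ≤ cr (d a) (d b) := by
  have hn1 : 1 ≤ n := ha.trans (hab.trans hb)
  have hd1 : d 1 ≠ 0 := hne 1 le_rfl hn1
  -- the negative direction is absorbing
  have hneg : ∀ c, 1 ≤ c → c + 1 ≤ n → (∃ m : ℝ, m < 0 ∧ d c = m • d 1) →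
      ∃ m : ℝ, m < 0 ∧ d (c + 1) = m • d 1 := by
    rintro c hc hcn ⟨m, hm, hdc⟩
    have h2 := hs c hc hcn
    rw [hdc, cr_smul_left] at h2
    have h3 := h1 (c + 1) (by omega) hcn
    have h4 : cr (d 1) (d (c + 1)) = 0 := by nlinarith
    obtain ⟨k, hk⟩ := exists_smul_of_cr_zero hd1 h4
    refine ⟨k, ?_, hk⟩
    have hk0 : k ≠ 0 := by
      rintro rfl
      exact hne (c + 1) (by omega) hcn (by rw [hk, zero_smul])
    by_contra hkn
    have hkp : 0 < k := lt_of_le_of_ne (not_lt.1 hkn) (Ne.symm hk0)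
    refine ho c hc hcn ⟨k / (k - m), -m / (k - m), ?_, ?_, ?_, ?_⟩
    · exact div_pos hkp (by linarith)
    · exact div_pos (by linarith) (by linarith)
    · have : k - m ≠ 0 := by linarith
      field_simp
      ring
    · have : k - m ≠ 0 := by linarith
      rw [hdc, hk, smul_smul, smul_smul, ← add_smul]
      have : k / (k - m) * m + -m / (k - m) * k = 0 := by field_simp; ring
      rw [this, zero_smul]
  have hneg' : ∀ c e, 1 ≤ c → c ≤ e → e ≤ n → (∃ m : ℝ, m < 0 ∧ d c = m • d 1) →
      ∃ m : ℝ, m < 0 ∧ d e = m • d 1 := by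
    intro c e hc hce
    induction e, hce using Nat.le_induction with
    | base => intro _ h; exact h
    | succ e hce ih =>
      intro hen h
      exact hneg e (by omega) hen (ih (by omega) h)
  induction b, hab using Nat.le_induction with
  | base => rw [cr_self]
  | succ b hab ih =>
    have ih := ih (by omega)
    have hb1 := h1 b (by omega) (by omega)
    have ha1 := h1 a ha (by omega)
    have hc1 := h1 (b + 1) (by omega) hb
    have hsb := hs b (by omega) hb
    rcases hb1.lt_or_eq with hpos | hzero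
    · have hP := cr_pluecker (d 1) (d a) (d b) (d (b + 1))
      have : 0 ≤ cr (d 1) (d b) * cr (d a) (d (b + 1)) := by
        rw [hP]; positivity
      exact nonneg_of_mul_nonneg_right this hpos
    · obtain ⟨l, hl⟩ := exists_smul_of_cr_zero hd1 hzero.symm
      have hl0 : l ≠ 0 := by
        rintro rfl
        exact hne b (by omega) (by omega) (by rw [hl, zero_smul])
      rcases lt_or_gt_of_ne hl0 with hneg1 | hpos1
      · obtain ⟨m, hm, hdm⟩ := hneg b (by omega) hb ⟨l, hneg1, hl⟩
        rw [hdm, cr_smul_right, cr_anti]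
        nlinarith
      · -- `d a` is parallel to `d 1`
        rw [hl, cr_smul_right, cr_anti] at ih
        have h0 : cr (d 1) (d a) = 0 := by nlinarith
        obtain ⟨m, hm⟩ := exists_smul_of_cr_zero hd1 h0
        have hm0 : 0 ≤ m := by
          by_contra hmn
          obtain ⟨m', hm', hdm'⟩ := hneg' a b ha hab (by omega) ⟨m, not_le.1 hmn, hm⟩
          have : (m' - l) • d 1 = 0 := by rw [sub_smul, ← hdm', ← hl, sub_self]
          rcases smul_eq_zero.1 this with h | h
          · linarith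
          · exact hd1 h
        rw [hm, cr_smul_left]
        positivity

lemma fin_succ (i : Fin 6) (a : ℕ) : i + Fin.ofNat 6 a + 1 = i + Fin.ofNat 6 (a + 1) := by
  apply Fin.ext
  simp only [Fin.val_add, Fin.val_ofNat, Fin.val_one]
  omega

/-- CONVEX ORDER: six corners in edge order (every corner on the left of every edge, no
corner inside an edge) are in weak convex position. -/
theorem conv6_of_edges (p : Fin 6 → Pl) (hinj : Function.Injective p)
    (hl : ∀ k l, 0 ≤ cr (p (k + 1) - p k) (p l - p k))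
    (ho : ∀ k l, p l ∉ openSegment ℝ (p k) (p (k + 1))) : Conv6 p := by
  have key : ∀ (i : Fin 6) (a b : ℕ), 1 ≤ a → a ≤ b → b ≤ 5 →
      0 ≤ cr (p (i + Fin.ofNat 6 a) - p i) (p (i + Fin.ofNat 6 b) - p i) := by
    intro i a b ha hab hb
    refine order_seq (fun a => p (i + Fin.ofNat 6 a) - p i) 5 ?_ ?_ ?_ ?_ a b ha hab hb
    · intro a ha hb h0
      have h1 : i + Fin.ofNat 6 a = i := hinj (sub_eq_zero.1 h0)
      have h2 : (Fin.ofNat 6 a) = 0 := by simpa using h1
      have : a % 6 = 0 := by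
        have := congrArg Fin.val h2
        simpa using this
      omega
    · intro a _ _
      exact hl i (i + Fin.ofNat 6 a)
    · intro a _ _
      have h2 := hl (i + Fin.ofNat 6 a) i
      rw [fin_succ] at h2
      have e1 : p (i + Fin.ofNat 6 (a + 1)) - p (i + Fin.ofNat 6 a) =
          (p (i + Fin.ofNat 6 (a + 1)) - p i) - (p (i + Fin.ofNat 6 a) - p i) := by abel
      have e2 : p i - p (i + Fin.ofNat 6 a) = - (p (i + Fin.ofNat 6 a) - p i) := by abel
      rw [e1, e2, cr_neg_right, cr_sub_left, cr_self] at h2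
      have := cr_anti (p (i + Fin.ofNat 6 (a + 1)) - p i) (p (i + Fin.ofNat 6 a) - p i)
      show 0 ≤ cr (p (i + Fin.ofNat 6 a) - p i) (p (i + Fin.ofNat 6 (a + 1)) - p i)
      linarith
    · rintro a _ _ ⟨x, y, hx, hy, hxy, h⟩
      refine ho (i + Fin.ofNat 6 a) i ⟨x, y, hx, hy, hxy, ?_⟩
      rw [fin_succ]
      have h4 : x • (p (i + Fin.ofNat 6 a) - p i) + y • (p (i + Fin.ofNat 6 (a + 1)) - p i) =
        x • p (i + Fin.ofNat 6 a) + y • p (i + Fin.ofNat 6 (a + 1)) - (x + y) • p i := by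
        rw [smul_sub, smul_sub, add_smul]; abel
      have h5 : x • (p (i + Fin.ofNat 6 a) - p i) +
          y • (p (i + Fin.ofNat 6 (a + 1)) - p i) = 0 := h
      rw [h4, hxy, one_smul, sub_eq_zero] at h5
      exact h5
  intro i j k hij hjk
  have := key i (j.val - i.val) (k.val - i.val) (by omega) (by omega) (by omega)
  have e1 : i + Fin.ofNat 6 (j.val - i.val) = j := by
    apply Fin.ext; simp only [Fin.val_add, Fin.val_ofNat]; omega
  have e2 : i + Fin.ofNat 6 (k.val - i.val) = k := by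
    apply Fin.ext; simp only [Fin.val_add, Fin.val_ofNat]; omega
  rwa [e1, e2] at this

/-- the strict form (corners = extreme points, `exists_cyclic_six` of helper68) -/
theorem conv6_of_strict (p : Fin 6 → Pl) (hinj : Function.Injective p)
    (hl : ∀ k l, l ≠ k → l ≠ k + 1 → 0 < cr (p (k + 1) - p k) (p l - p k)) : Conv6 p := by
  refine conv6_of_edges p hinj ?_ ?_
  · intro k l
    by_cases h1 : l = k
    · rw [h1, sub_self, cr_zero_right]
    by_cases h2 : l = k + 1
    · rw [h2, cr_self]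
    exact (hl k l h1 h2).le
  · rintro k l ⟨x, y, hx, hy, hxy, h⟩
    by_cases h1 : l = k
    · subst h1
      have h3 : y • (p (l + 1) - p l) = 0 := by
        have : x = 1 - y := by linarith
        rw [this, sub_smul, one_smul] at h
        rw [smul_sub]
        have := congrArg (fun z => z - p l) h
        simp only [sub_self] at this
        rw [← this]; abel
      rcases smul_eq_zero.1 h3 with h4 | h4
      · linarith
      · have := hinj (sub_eq_zero.1 h4)
        simp at this
    by_cases h2 : l = k + 1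
    · subst h2
      have h3 : x • (p k - p (k + 1)) = 0 := by
        have : y = 1 - x := by linarith
        rw [this, sub_smul, one_smul] at h
        rw [smul_sub]
        have := congrArg (fun z => z - p (k + 1)) h
        simp only [sub_self] at this
        rw [← this]; abel
      rcases smul_eq_zero.1 h3 with h4 | h4
      · linarith
      · have := hinj (sub_eq_zero.1 h4)
        simp at this
    have h5 := hl k l h1 h2
    have h6 : p l - p k = y • (p (k + 1) - p k) := by
      have : x = 1 - y := by linarith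
      rw [← h, this, sub_smul, one_smul, smul_sub]; abel
    rw [h6, cr_smul_right, cr_self] at h5
    simp at h5

/-! ### frames, shears, reflections are linear -/

lemma Am_sub (ν c s : ℝ) (u v : Pl) : Am ν c s (u - v) = Am ν c s u - Am ν c s v := by
  apply pl_ext <;> simp [Am] <;> ring

lemma Am_add (ν c s : ℝ) (u v : Pl) : Am ν c s (u + v) = Am ν c s u + Am ν c s v := by
  apply pl_ext <;> simp [Am] <;> ring

lemma Am_smul (ν c s a : ℝ) (v : Pl) : Am ν c s (a • v) = a • Am ν c s v := by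
  apply pl_ext <;> simp [Am] <;> ring

lemma Sh_sub (e : ℝ) (u v : Pl) : Sh e (u - v) = Sh e u - Sh e v := by
  apply pl_ext <;> simp [Sh] <;> ring

lemma Sh_add (e : ℝ) (u v : Pl) : Sh e (u + v) = Sh e u + Sh e v := by
  apply pl_ext <;> simp [Sh] <;> ring

lemma Sh_smul (e a : ℝ) (v : Pl) : Sh e (a • v) = a • Sh e v := by
  apply pl_ext <;> simp [Sh] <;> ring

lemma Jt_sub (t : Bool) (u v : Pl) : Jt t (u - v) = Jt t u - Jt t v := by
  cases t
  · simp [Jt]
  · apply pl_ext <;> simp [Jt] <;> ring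

lemma Jt_smul (t : Bool) (a : ℝ) (v : Pl) : Jt t (a • v) = a • Jt t v := by
  cases t
  · simp [Jt]
  · apply pl_ext <;> simp [Jt]

lemma Off_sub (ν co so : ℝ) (t : Bool) (u v : Pl) :
    Off ν co so t (u - v) = Off ν co so t u - Off ν co so t v := by
  cases t
  · simp [Off]
  · simp [Off, Am_sub]

lemma cr_Am (ν c s : ℝ) (u v : Pl) :
    cr (Am ν c s u) (Am ν c s v) = (c ^ 2 + ν * s ^ 2) * cr u v := by
  simp [cr, Am]; ring

lemma cr_Sh (e : ℝ) (u v : Pl) : cr (Sh e u) (Sh e v) = cr u v := by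
  simp [cr, Sh]; ring

lemma cr_Jt (t : Bool) (u v : Pl) : cr (Jt t u) (Jt t v) = (if t then -1 else 1) * cr u v := by
  cases t
  · simp [Jt]
  · simp [cr, Jt]; ring

lemma cr_Off {ν co so : ℝ} (h : co ^ 2 + ν * so ^ 2 = 1) (t : Bool) (u v : Pl) :
    cr (Off ν co so t u) (Off ν co so t v) = cr u v := by
  cases t
  · simp [Off]
  · simp [Off, cr_Am, h]

/-! ### invariance of `Conv6` and `ar6` -/

/-- differences determine `Conv6` -/
lemma conv6_congr {p q : Fin 6 → Pl}
    (h : ∀ i j k, cr (p j - p i) (p k - p i) = cr (q j - q i) (q k - q i)) :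
    Conv6 p ↔ Conv6 q :=
  forall_congr' fun i => forall_congr' fun j => forall_congr' fun k => by rw [h]

/-- the shoelace area through differences from the corner `0` -/
lemma ar6_eq (p : Fin 6 → Pl) :
    ar6 p = (cr (p 1 - p 0) (p 2 - p 0) + cr (p 2 - p 0) (p 3 - p 0) +
      cr (p 3 - p 0) (p 4 - p 0) + cr (p 4 - p 0) (p 5 - p 0)) / 2 := by
  simp only [ar6, Fin.sum_univ_six]
  have e0 : (0 : Fin 6) + 1 = 1 := by decide
  have e1 : (1 : Fin 6) + 1 = 2 := by decide
  have e2 : (2 : Fin 6) + 1 = 3 := by decide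
  have e3 : (3 : Fin 6) + 1 = 4 := by decide
  have e4 : (4 : Fin 6) + 1 = 5 := by decide
  have e5 : (5 : Fin 6) + 1 = 0 := by decide
  rw [e0, e1, e2, e3, e4, e5]
  simp only [cr, PiLp.sub_apply]
  ring

lemma ar6_congr {p q : Fin 6 → Pl}
    (h : ∀ i j k, cr (p j - p i) (p k - p i) = cr (q j - q i) (q k - q i)) :
    ar6 p = ar6 q := by
  rw [ar6_eq, ar6_eq, h, h, h, h]

lemma pos_diff {ν co so c s : ℝ} (hc : c ^ 2 + ν * s ^ 2 = 1) (ho : co ^ 2 + ν * so ^ 2 = 1)
    (t : Bool) (o : Pl) (q : Fin 6 → Pl) (i j k : Fin 6) :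
    cr (Pos ν co so t c s o (q j) - Pos ν co so t c s o (q i))
      (Pos ν co so t c s o (q k) - Pos ν co so t c s o (q i)) =
    cr (q j - q i) (q k - q i) := by
  simp only [Pos, add_sub_add_left_eq_sub]
  rw [← Am_sub, ← Am_sub, ← Off_sub, ← Off_sub, cr_Am, hc, one_mul, cr_Off ho]

/-- `Conv6` is invariant under the position map of a cell -/
theorem conv6_pos {ν co so c s : ℝ} (hc : c ^ 2 + ν * s ^ 2 = 1)
    (ho : co ^ 2 + ν * so ^ 2 = 1) (t : Bool) (o : Pl) (q : Fin 6 → Pl) :
    Conv6 (fun k => Pos ν co so t c s o (q k)) ↔ Conv6 q :=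
  conv6_congr (pos_diff hc ho t o q)

/-- the area is invariant under the position map of a cell -/
theorem ar6_pos {ν co so c s : ℝ} (hc : c ^ 2 + ν * s ^ 2 = 1)
    (ho : co ^ 2 + ν * so ^ 2 = 1) (t : Bool) (o : Pl) (q : Fin 6 → Pl) :
    ar6 (fun k => Pos ν co so t c s o (q k)) = ar6 q :=
  ar6_congr (pos_diff hc ho t o q)

/-- the triple product is invariant under rotation of the three points -/
lemma tri_rot (u v w : Pl) : cr (v - u) (w - u) = cr (w - v) (u - v) := by
  simp only [cr, PiLp.sub_apply]; ring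

lemma tri_swap (u v w : Pl) : cr (v - u) (w - u) = - cr (w - u) (v - u) := cr_anti _ _

/-- `Conv6` for every triple in cyclic order -/
lemma conv6_cyc {p : Fin 6 → Pl} (h : Conv6 p) {i j k : Fin 6}
    (hc : (i < j ∧ j < k) ∨ (j < k ∧ k < i) ∨ (k < i ∧ i < j)) :
    0 ≤ cr (p j - p i) (p k - p i) := by
  rcases hc with ⟨h1, h2⟩ | ⟨h1, h2⟩ | ⟨h1, h2⟩
  · exact h i j k h1 h2
  · rw [tri_rot]; exact h j k i h1 h2
  · rw [tri_rot, tri_rot]; exact h k i j h1 h2

lemma fin6_shift : ∀ m i j k : Fin 6, i < j → j < k →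
    (i + m < j + m ∧ j + m < k + m) ∨ (j + m < k + m ∧ k + m < i + m) ∨
      (k + m < i + m ∧ i + m < j + m) := by decide

lemma fin6_neg : ∀ i j k : Fin 6, i < j → j < k →
    (-i < -k ∧ -k < -j) ∨ (-k < -j ∧ -j < -i) ∨ (-j < -i ∧ -i < -k) := by decide

/-- cyclic shifts -/
theorem conv6_shift {p : Fin 6 → Pl} (h : Conv6 p) (m : Fin 6) : Conv6 (fun k => p (k + m)) :=
  fun i j k hij hjk => conv6_cyc h (fin6_shift m i j k hij hjk)

theorem ar6_shift (p : Fin 6 → Pl) (m : Fin 6) : ar6 (fun k => p (k + m)) = ar6 p := by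
  have : ∑ k, cr (p (k + m)) (p (k + 1 + m)) = ∑ k, cr (p k) (p (k + 1)) := by
    rw [← Equiv.sum_comp (Equiv.addRight m) (fun k => cr (p k) (p (k + 1)))]
    refine Finset.sum_congr rfl fun k _ => ?_
    simp only [Equiv.coe_addRight]
    rw [add_right_comm]
  simp only [ar6, this]

/-- orientation reversing maps reverse the order -/
theorem conv6_neg_of_anti {p q : Fin 6 → Pl} (h : Conv6 q)
    (hpq : ∀ i j k, cr (p j - p i) (p k - p i) =
      - cr (q (-j) - q (-i)) (q (-k) - q (-i))) : Conv6 p := by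
  intro i j k hij hjk
  rw [hpq, tri_swap, neg_neg]
  exact conv6_cyc h (fin6_neg i j k hij hjk)

theorem ar6_neg_of_anti {p q : Fin 6 → Pl}
    (hpq : ∀ i j k, cr (p j - p i) (p k - p i) =
      - cr (q (-j) - q (-i)) (q (-k) - q (-i))) : ar6 p = ar6 q := by
  rw [ar6_eq, ar6_eq, hpq, hpq, hpq, hpq]
  have e0 : -(0 : Fin 6) = 0 := by decide
  have e1 : -(1 : Fin 6) = 5 := by decide
  have e2 : -(2 : Fin 6) = 4 := by decide
  have e3 : -(3 : Fin 6) = 3 := by decide
  have e4 : -(4 : Fin 6) = 2 := by decide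
  have e5 : -(5 : Fin 6) = 1 := by decide
  rw [e0, e1, e2, e3, e4, e5]
  simp only [cr, PiLp.sub_apply]
  ring

/-- the sextuple in `K0` belonging to a sextuple in the local body -/
def toK (a b : ℝ) (t : Bool) (q : Fin 6 → Pl) (k : Fin 6) : Pl :=
  Am 1 a (-b) (Jt t (q (if t then -k else k)))

lemma toK_mem {K0 : Set Pl} {a b : ℝ} {t : Bool} {q : Fin 6 → Pl}
    (h : ∀ k, InBody K0 a b t (q k)) (k : Fin 6) : toK a b t q k ∈ K0 := h _

lemma toK_false (a b : ℝ) (q : Fin 6 → Pl) (i j k : Fin 6) (hab : a ^ 2 + b ^ 2 = 1) :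
    cr (toK a b false q j - toK a b false q i) (toK a b false q k - toK a b false q i) =
      cr (q j - q i) (q k - q i) := by
  have h1 : a ^ 2 + 1 * (-b) ^ 2 = 1 := by rw [one_mul, neg_sq]; exact hab
  simp only [toK, ← Am_sub, ← Jt_sub, cr_Am, cr_Jt, h1]
  simp

lemma toK_true (a b : ℝ) (q : Fin 6 → Pl) (i j k : Fin 6) (hab : a ^ 2 + b ^ 2 = 1) :
    cr (toK a b true q j - toK a b true q i) (toK a b true q k - toK a b true q i) =
      - cr (q (-j) - q (-i)) (q (-k) - q (-i)) := by
  have h1 : a ^ 2 + 1 * (-b) ^ 2 = 1 := by rw [one_mul, neg_sq]; exact hab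
  simp only [toK, ← Am_sub, ← Jt_sub, cr_Am, cr_Jt, h1]
  simp

theorem conv6_toK {a b : ℝ} (hab : a ^ 2 + b ^ 2 = 1) (t : Bool) {q : Fin 6 → Pl}
    (h : Conv6 q) : Conv6 (toK a b t q) := by
  cases t
  · exact (conv6_congr fun i j k => toK_false a b q i j k hab).2 h
  · exact conv6_neg_of_anti h fun i j k => toK_true a b q i j k hab

theorem ar6_toK {a b : ℝ} (hab : a ^ 2 + b ^ 2 = 1) (t : Bool) (q : Fin 6 → Pl) :
    ar6 (toK a b t q) = ar6 q := by
  cases t
  · exact ar6_congr fun i j k => toK_false a b q i j k hab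
  · exact ar6_neg_of_anti fun i j k => toK_true a b q i j k hab

/-- `LeMax` bounds the sextuples of all local bodies -/
theorem leMax_inBody {K0 : Set Pl} {t6 : ℝ} (h : LeMax K0 t6) {a b : ℝ}
    (hab : a ^ 2 + b ^ 2 = 1) {t : Bool} {q : Fin 6 → Pl} (hq : Conv6 q)
    (hK : ∀ k, InBody K0 a b t (q k)) : ar6 q ≤ t6 := by
  rw [← ar6_toK hab t q]
  exact h _ (conv6_toK hab t hq) (toK_mem hK)

end

end C2305b.Rig.O74
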