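import Pool.Agent.W_c2305b_h72.NearSym

/-! MP_c2305b_co, row 552, module G2: the exact statement for maximal sextuples with a
vertical edge: (U) `same width or same height ==> equal`, and the eight type words. -/

namespace C2305b.Rig.X74

open C2305b.Rig O74

noncomputable section

/-! ### symmetric sextuples -/

/-- the symmetric sextuple with corners `x, y, z` -/
def hx (x y z : Pl) : Fin 6 → Pl := ![x, y, z, -x, -y, -z]

/-- a mixed sextuple -/
def hm (x y z w : Pl) : Fin 6 → Pl := ![x, y, z, -x, -y, -w]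

lemma ar6_six (p : Fin 6 → Pl) : ar6 p = (cr (p 0) (p 1) + cr (p 1) (p 2) + cr (p 2) (p 3) +
    cr (p 3) (p 4) + cr (p 4) (p 5) + cr (p 5) (p 0)) / 2 := by
  simp only [ar6, Fin.sum_univ_six]
  rfl

lemma ar6_hm (x y z w : Pl) : ar6 (hm x y z w) =
    (cr x y + cr y z + cr x z + (cr x y + cr y w + cr x w)) / 2 := by
  rw [ar6_six]
  simp only [hm, cr, Matrix.cons_val, PiLp.neg_apply]
  ring

lemma ar6_hx (x y z : Pl) : ar6 (hx x y z) = cr x y + cr y z + cr x z := by
  have : hx x y z = hm x y z z := rfl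
  rw [this, ar6_hm]; ring

lemma conv6_hm {x y z w : Pl}
    (a1 : cr x z ≤ cr x y + cr y z) (a2 : cr x y ≤ cr y z + cr x z)
    (a3 : cr y z ≤ cr x y + cr x z)
    (b1 : cr x w ≤ cr x y + cr y w) (b2 : cr x y ≤ cr y w + cr x w)
    (b3 : cr y w ≤ cr x y + cr x w)
    (c1 : |cr z w| ≤ cr x z + cr x w) (c2 : |cr z w| ≤ cr y z + cr y w) :
    Conv6 (hm x y z w) := by
  have c1' := abs_le.1 c1
  have c2' := abs_le.1 c2
  simp only [cr] at *
  intro i j k hij hjk
  fin_cases i <;> fin_cases j <;> fin_cases k <;>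
    first
    | (exfalso; revert hij; decide)
    | (exfalso; revert hjk; decide)
    | (simp only [cr, hm, Matrix.cons_val, PiLp.sub_apply, PiLp.neg_apply, Fin.zero_eta,
        Fin.mk_one, Fin.reduceFinMk]
       nlinarith [c1'.1, c1'.2, c2'.1, c2'.2])

lemma conv6_hx {x y z : Pl}
    (a1 : cr x z ≤ cr x y + cr y z) (a2 : cr x y ≤ cr y z + cr x z)
    (a3 : cr y z ≤ cr x y + cr x z) : Conv6 (hx x y z) := by
  have h : hx x y z = hm x y z z := rfl
  rw [h]
  refine conv6_hm a1 a2 a3 a1 a2 a3 ?_ ?_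
  · rw [cr_self, abs_zero]; linarith
  · rw [cr_self, abs_zero]; linarith

/-! ### maximal symmetric sextuples with a vertical right edge -/

/-- the body `K` of one type: convex, symmetric, `T` bounds the convex sextuples and the
maximal ones are symmetric -/
structure Body (K : Set Pl) (T : ℝ) : Prop where
  conv : Convex ℝ K
  sym : ∀ v ∈ K, -v ∈ K
  le : ∀ q : Fin 6 → Pl, Conv6 q → (∀ k, q k ∈ K) → ar6 q ≤ T
  sy : ∀ q : Fin 6 → Pl, Conv6 q → (∀ k, q k ∈ K) → ar6 q = T → ∀ k, q (k + 3) = - q k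

/-- `(x, y, z, -x, -y, -z)` is maximal in `K`, with vertical right edge `x -> y` -/
structure VH (K : Set Pl) (T : ℝ) (x y z : Pl) : Prop where
  mx : x ∈ K
  my : y ∈ K
  mz : z ∈ K
  ta : cr x z < cr x y + cr y z
  tb : cr x y < cr y z + cr x z
  tc : cr y z < cr x y + cr x z
  ar : cr x y + cr y z + cr x z = T
  ve : y 0 = x 0
  up : x 1 < y 1

lemma hx_mem {K : Set Pl} {T : ℝ} (B : Body K T) {x y z : Pl} (hx' : x ∈ K) (hy : y ∈ K)
    (hz : z ∈ K) : ∀ k, hx x y z k ∈ K := by
  intro k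
  fin_cases k
  · exact hx'
  · exact hy
  · exact hz
  · exact B.sym _ hx'
  · exact B.sym _ hy
  · exact B.sym _ hz

/-- for small `ε` an affine inequality is kept -/
lemma exists_eps {c : ℝ} (hc : 0 < c) (d : ℝ) :
    ∃ e : ℝ, 0 < e ∧ e ≤ 1 ∧ ∀ f, 0 < f → f ≤ e → 0 ≤ c + f * d := by
  refine ⟨min 1 (c / (|d| + 1)), by positivity, min_le_left _ _, fun f hf hfe => ?_⟩
  have h1 : f ≤ c / (|d| + 1) := hfe.trans (min_le_right _ _)
  rw [le_div_iff₀ (by positivity)] at h1
  have h2 := neg_abs_le d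
  nlinarith [abs_nonneg d]

/-- support inequality at the corner `y` -/
lemma VH.supp {K : Set Pl} {T : ℝ} (B : Body K T) {x y z : Pl} (mx : x ∈ K) (my : y ∈ K)
    (mz : z ∈ K) (ta : cr x z < cr x y + cr y z) (tb : cr x y < cr y z + cr x z)
    (tc : cr y z < cr x y + cr x z) (ar : cr x y + cr y z + cr x z = T) {w : Pl} (hw : w ∈ K) :
    cr (w - y) (z - x) ≤ 0 := by
  by_contra hcon
  push Not at hcon
  obtain ⟨e1, h1, h1', k1⟩ := exists_eps (c := cr x y + cr y z - cr x z) (by linarith)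
    (cr x (w - y) + cr (w - y) z)
  obtain ⟨e2, h2, h2', k2⟩ := exists_eps (c := cr y z + cr x z - cr x y) (by linarith)
    (cr (w - y) z - cr x (w - y))
  obtain ⟨e3, h3, h3', k3⟩ := exists_eps (c := cr x y + cr x z - cr y z) (by linarith)
    (cr x (w - y) - cr (w - y) z)
  set e := min e1 (min e2 e3) with he
  have hpos : 0 < e := lt_min h1 (lt_min h2 h3)
  have l1 := k1 e hpos (min_le_left _ _)
  have l2 := k2 e hpos ((min_le_right _ _).trans (min_le_left _ _))
  have l3 := k3 e hpos ((min_le_right _ _).trans (min_le_right _ _))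
  have hmem : y + e • (w - y) ∈ K := by
    have := B.conv my hw (a := 1 - e) (b := e) (by
      have : e ≤ 1 := (min_le_left _ _).trans h1'
      linarith) hpos.le (by ring)
    convert this using 1
    rw [smul_sub, sub_smul, one_smul]; abel
  have hc : Conv6 (hx x (y + e • (w - y)) z) := by
    refine conv6_hx ?_ ?_ ?_ <;>
    · simp only [cr_add_left, cr_add_right, cr_smul_left, cr_smul_right]
      nlinarith
  have := B.le _ hc (hx_mem B mx hmem mz)
  rw [ar6_hx] at this
  simp only [cr_add_left, cr_add_right, cr_smul_left, cr_smul_right] at this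
  have h5 : cr (w - y) (z - x) = cr (w - y) z + cr x (w - y) := by
    rw [cr_sub_right, cr_anti (w - y) x]; ring
  nlinarith

lemma VH.supp_y {K : Set Pl} {T : ℝ} (B : Body K T) {x y z : Pl} (H : VH K T x y z) {w : Pl}
    (hw : w ∈ K) : cr (w - y) (z - x) ≤ 0 :=
  VH.supp B H.mx H.my H.mz H.ta H.tb H.tc H.ar hw

lemma VH.supp_x {K : Set Pl} {T : ℝ} (B : Body K T) {x y z : Pl} (H : VH K T x y z) {w : Pl}
    (hw : w ∈ K) : cr (w - x) (y + z) ≤ 0 := by
  have h := VH.supp B (x := -z) (y := x) (z := y) (B.sym _ H.mz) H.mx H.my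
    (by rw [cr_neg_left, cr_neg_left, cr_anti z y, cr_anti z x]; linarith [H.tc])
    (by rw [cr_neg_left, cr_neg_left, cr_anti z y, cr_anti z x]; linarith [H.ta])
    (by rw [cr_neg_left, cr_neg_left, cr_anti z y, cr_anti z x]; linarith [H.tb])
    (by rw [cr_neg_left, cr_neg_left, cr_anti z y, cr_anti z x]; linarith [H.ar]) hw
  rwa [sub_neg_eq_add] at h

lemma VH.supp_z {K : Set Pl} {T : ℝ} (B : Body K T) {x y z : Pl} (H : VH K T x y z) {w : Pl}
    (hw : w ∈ K) : cr (x + y) (w - z) ≤ 0 := by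
  have h := VH.supp B (x := y) (y := z) (z := -x) H.my H.mz (B.sym _ H.mx)
    (by rw [cr_neg_right, cr_neg_right, cr_anti z x, cr_anti y x]; linarith [H.tb])
    (by rw [cr_neg_right, cr_neg_right, cr_anti z x, cr_anti y x]; linarith [H.tc])
    (by rw [cr_neg_right, cr_neg_right, cr_anti z x, cr_anti y x]; linarith [H.ta])
    (by rw [cr_neg_right, cr_neg_right, cr_anti z x, cr_anti y x]; linarith [H.ar]) hw
  have e : -x - y = -(x + y) := by abel
  rw [e, cr_neg_right, cr_anti] at h
  linarith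

/-! ### (U): same width or same height implies equal -/

/-- positivity of the two horizontal extents -/
lemma VH.ext {K : Set Pl} {T : ℝ} {x y z : Pl} (H : VH K T x y z) :
    0 < x 0 + z 0 ∧ 0 < x 0 - z 0 := by
  have h1 := H.tc
  have h2 := H.ta
  have hu := H.up
  simp only [cr, H.ve] at h1 h2
  constructor
  · by_contra hc
    nlinarith
  · by_contra hc
    nlinarith

/-- the chord inequality -/
lemma chord {K : Set Pl} {T : ℝ} (B : Body K T) {x y z x' y' z' : Pl} (H : VH K T x y z)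
    (H' : VH K T x' y' z') :
    ∃ G P : ℝ, 0 < G ∧ 0 < P ∧
      (x' 0 - x 0) * G + P * ((y' 1 - x' 1) - (y 1 - x 1)) ≤ 0 := by
  obtain ⟨ha, hb⟩ := H.ext
  have hu := H.up
  have h1 := H.supp_y B H'.my
  have h2 := H.supp_x B H'.mx
  have h3 := H.tb
  refine ⟨(x 0 + z 0) * (z 1 - x 1) + (x 0 - z 0) * (y 1 + z 1),
    (x 0 + z 0) * (x 0 - z 0), ?_, mul_pos ha hb, ?_⟩
  · simp only [cr, H.ve] at h3
    nlinarith [mul_pos (by linarith : 0 < x 0 + z 0 + (x 0 - z 0)) (sub_pos.2 hu)]
  · simp only [cr, PiLp.sub_apply, PiLp.add_apply, H.ve, H'.ve] at h1 h2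
    have e1 := mul_le_mul_of_nonneg_left h1 ha.le
    have e2 := mul_le_mul_of_nonneg_left h2 hb.le
    rw [mul_zero] at e1 e2
    nlinarith [e1, e2]

/-- (U), first part: the vertical edges agree -/
lemma edge_eq {K : Set Pl} {T : ℝ} (B : Body K T) {x y z x' y' z' : Pl} (H : VH K T x y z)
    (H' : VH K T x' y' z') (h : x' 0 = x 0 ∨ y' 1 - x' 1 = y 1 - x 1) : x' = x ∧ y' = y := by
  obtain ⟨G, P, hG, hP, h1⟩ := chord B H H'
  obtain ⟨G', P', hG', hP', h2⟩ := chord B H' H
  have hx0 : x' 0 = x 0 := by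
    rcases h with h | h
    · exact h
    · rw [h, sub_self, mul_zero, add_zero] at h1 h2
      apply le_antisymm <;> nlinarith
  have hh : y' 1 - x' 1 = y 1 - x 1 := by
    rw [hx0, sub_self, zero_mul, zero_add] at h1 h2
    apply le_antisymm <;> nlinarith
  obtain ⟨ha, hb⟩ := H.ext
  have h3 := H.supp_y B H'.my
  have h4 := H.supp_x B H'.mx
  simp only [cr, PiLp.sub_apply, PiLp.add_apply, H.ve, H'.ve, hx0, sub_self, zero_mul,
    zero_sub] at h3 h4
  have h5 : x' 1 = x 1 := by
    apply le_antisymm <;> nlinarith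
  constructor
  · exact pl_ext hx0 h5
  · refine pl_ext ?_ ?_
    · rw [H.ve, H'.ve, hx0]
    · linarith

/-- (U): two maximal sextuples with vertical right edges of the same length, or at the same
abscissa, are equal -/
theorem VH.unique {K : Set Pl} {T : ℝ} (B : Body K T) {x y z x' y' z' : Pl} (H : VH K T x y z)
    (H' : VH K T x' y' z') (h : x' 0 = x 0 ∨ y' 1 - x' 1 = y 1 - x 1) :
    x' = x ∧ y' = y ∧ z' = z := by
  obtain ⟨rfl, rfl⟩ := edge_eq B H H' h
  refine ⟨rfl, rfl, ?_⟩
  have s1 := H.supp_z B H'.mz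
  have s2 := H'.supp_z B H.mz
  have hs : cr (x' + y') (z' - z) = 0 := by
    rw [cr_sub_right] at s1 s2 ⊢
    linarith
  -- `z' = z + t (x + y)`
  have hxy : x' + y' ≠ 0 := by
    intro h0
    have h1 := H.tb
    have : y' = - x' := by rw [← sub_eq_zero, sub_neg_eq_add, add_comm]; exact h0
    rw [this, cr_neg_right, cr_self, cr_neg_left] at h1
    linarith
  obtain ⟨t, ht⟩ := exists_smul_of_cr_zero hxy hs
  have hz' : z' = z + t • (x' + y') := by rw [← ht]; abel
  set D := cr x' y' with hD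
  set f := cr x' z with hf
  set g := cr y' z with hg
  have ef : cr x' z' = f + t * D := by
    rw [hz', cr_add_right, cr_smul_right, cr_add_right, cr_self]; ring
  have eg : cr y' z' = g - t * D := by
    rw [hz', cr_add_right, cr_smul_right, cr_add_right, cr_self, cr_anti y' x']; ring
  have ez : cr z' z = t * (f + g) := by
    rw [hz', cr_add_left, cr_self, cr_smul_left, cr_add_left]; ring
  have a1 := H.ta
  have a2 := H.tb
  have a3 := H.tc
  have b1 := H'.ta
  have b2 := H'.tb
  have b3 := H'.tc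
  rw [ef, eg] at b1 b2 b3
  have hDp : 0 < D := by linarith
  have ht1 : |t| ≤ 1 := by
    rw [abs_le]
    constructor
    · by_contra hc
      push Not at hc
      nlinarith
    · by_contra hc
      push Not at hc
      nlinarith
  have hfg : D < f + g := by linarith
  -- the mixed sextuple
  have key : ∀ u v : ℝ, |u| < D → |v| < D → 2 * t * D = v - u →
      |t * (f + g)| ≤ (f + g) - |u + v| / 2 := by
    intro u v hu hv huv
    rw [abs_mul, abs_of_pos (by linarith : 0 < f + g)]
    have h1 : 2 * (|t| * D) = |v - u| := by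
      rw [← huv, abs_mul, abs_mul, abs_of_pos hDp, abs_two]; ring
    have h2 : |v - u| + |u + v| ≤ 2 * D := by
      have hu' := abs_lt.1 hu
      have hv' := abs_lt.1 hv
      rcases abs_cases (v - u) with ⟨e1, _⟩ | ⟨e1, _⟩ <;>
      rcases abs_cases (u + v) with ⟨e2, _⟩ | ⟨e2, _⟩ <;> rw [e1, e2] <;> linarith
    have h3 : (1 - |t|) * D ≤ (1 - |t|) * (f + g) :=
      mul_le_mul_of_nonneg_left hfg.le (by linarith)
    nlinarith
  have hk := key (f - g) ((f + t * D) - (g - t * D)) (abs_lt.2 ⟨by linarith, by linarith⟩)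
    (abs_lt.2 ⟨by linarith, by linarith⟩) (by ring)
  have hk1 := neg_abs_le (f - g + (f + t * D - (g - t * D)))
  have hk2 := le_abs_self (f - g + (f + t * D - (g - t * D)))
  have hconv : Conv6 (hm x' y' z' z) := by
    refine conv6_hm ?_ ?_ ?_ a1.le a2.le a3.le ?_ ?_
    · rw [ef, eg]; exact b1.le
    · rw [ef, eg]; exact b2.le
    · rw [ef, eg]; exact b3.le
    · rw [ez, ef]; linarith
    · rw [ez, eg]; linarith
  have hmem : ∀ k, hm x' y' z' z k ∈ K := by
    intro k
    fin_cases k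
    · exact H.mx
    · exact H.my
    · exact H'.mz
    · exact B.sym _ H.mx
    · exact B.sym _ H.my
    · exact B.sym _ H.mz
  have har : ar6 (hm x' y' z' z) = T := by
    rw [ar6_hm, H.ar, H'.ar]; ring
  have := B.sy _ hconv hmem har 2
  have e5 : hm x' y' z' z (2 + 3) = - z := rfl
  have e2 : hm x' y' z' z 2 = z' := rfl
  rw [e5, e2] at this
  exact (neg_injective this).symm

end

end C2305b.Rig.X74
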