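import Pool.Agent.W_c2305b_h74.Exact4

/-! MP_c2305b_co, row 552, module G2: the eight type words. -/

namespace C2305b.Rig.X74

open C2305b.Rig O74

noncomputable section

/-- lower right = upper left edge -/
def Rt (t : Bool) (u w : Pl) : Pl := if t then !₂[u 0, - u 1] else w

/-- lower left = upper right edge -/
def Lt (t : Bool) (u w : Pl) : Pl := if t then !₂[w 0, - w 1] else u

lemma Sh0 (e : ℝ) (v : Pl) : Sh e v 0 = v 0 := rfl
lemma Sh1 (e : ℝ) (v : Pl) : Sh e v 1 = e * v 0 + v 1 := rfl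
lemma Rtf (u w : Pl) : Rt false u w = w := rfl
lemma Rtt0 (u w : Pl) : Rt true u w 0 = u 0 := rfl
lemma Rtt1 (u w : Pl) : Rt true u w 1 = - u 1 := rfl
lemma Ltf (u w : Pl) : Lt false u w = u := rfl
lemma Ltt0 (u w : Pl) : Lt true u w 0 = w 0 := rfl
lemma Ltt1 (u w : Pl) : Lt true u w 1 = - w 1 := rfl

/-- the numbers of the type words -/
lemma word_num (tA tB tC tD : Bool) (u w u' w' : Pl) (eA eB eC eD : ℝ)
    (hu : 0 < u 0) (hw : 0 < w 0)
    (hU : u' 0 + w' 0 = u 0 + w 0 → u' = u ∧ w' = w)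
    (E1 : Sh eA (Rt tA u w) = Sh eC (Rt tC u' w'))
    (E2 : Sh eB (Lt tB u w) = Sh eC (Lt tC u' w'))
    (E3 : Sh eB (Rt tB u w) = Sh eD (Rt tD u' w')) :
    cr (Sh eA (Lt tA u w + Rt tA u w)) (Sh eB (Lt tB u w + Rt tB u w)) = 0 := by
  have p10 : Sh eA (Rt tA u w) 0 = Sh eC (Rt tC u' w') 0 := by rw [E1]
  have p20 : Sh eB (Lt tB u w) 0 = Sh eC (Lt tC u' w') 0 := by rw [E2]
  have p30 : Sh eB (Rt tB u w) 0 = Sh eD (Rt tD u' w') 0 := by rw [E3]
  have p11 : Sh eA (Rt tA u w) 1 = Sh eC (Rt tC u' w') 1 := by rw [E1]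
  have p21 : Sh eB (Lt tB u w) 1 = Sh eC (Lt tC u' w') 1 := by rw [E2]
  clear E1 E2 E3
  have hext : u' 0 + w' 0 = u 0 + w 0 := by
    clear p11 p21 hU
    cases tA <;> cases tB <;> cases tC <;> cases tD <;>
      simp only [Sh0, Rtf, Rtt0, Ltf, Ltt0] at p10 p20 p30 <;> linarith
  obtain ⟨rfl, rfl⟩ := hU hext
  have hcr : ∀ a b : Pl, a 0 = b 0 → a 1 = b 1 → cr a b = 0 := by
    intro a b h0 h1
    simp only [cr, h0, h1]; ring
  refine hcr _ _ ?_ ?_
  · cases tA <;> cases tB <;>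
      simp only [Sh0, PiLp.add_apply, Rtf, Rtt0, Ltf, Ltt0] <;> ring
  · cases tA <;> cases tB <;> cases tC <;> cases tD <;>
      simp only [Sh0, Sh1, PiLp.add_apply, Rtf, Rtt0, Ltf, Ltt0, Rtt1, Ltt1] at p10 p20 p30 p11 p21 ⊢ <;>
      first
      | (have h1 : eA = eC := mul_right_cancel₀ hw.ne' (by linarith)
         have h2 : eB = eC := mul_right_cancel₀ hu.ne' (by linarith)
         rw [h1, h2])
      | (have h1 : eA = eC := mul_right_cancel₀ hu.ne' (by linarith)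
         have h2 : eB = eC := mul_right_cancel₀ hw.ne' (by linarith)
         rw [h1, h2])
      | (rw [p10] at p11 p21 ⊢; linarith)
      | (rw [← p10] at p11 p21 ⊢; linarith)
      | (rw [p20] at p11 p21 ⊢; linarith)
      | (rw [← p20] at p11 p21 ⊢; linarith)
      | (rw [p30] at p11 p21 ⊢; linarith)
      | (rw [← p30] at p11 p21 ⊢; linarith)

end

end C2305b.Rig.X74
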