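import Pool.Agent.W_c2305b_h74.Exact5

/-! MP_c2305b_co, row 552, module G2: the exact statement for four maximal sextuples around
a vertical edge. -/

namespace C2305b.Rig.X74

open C2305b.Rig O74

noncomputable section

/-- the rotated body -/
def KV (K0 : Set Pl) (a b : ℝ) : Set Pl := {v | Am 1 a (-b) v ∈ K0}

lemma Am_neg (ν c s : ℝ) (v : Pl) : Am ν c s (-v) = - Am ν c s v := by
  have := Am_smul ν c s (-1) v
  simpa using this

lemma Am1_inj {a b : ℝ} (hab : a ^ 2 + b ^ 2 = 1) {u v : Pl}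
    (h : Am 1 a (-b) u = Am 1 a (-b) v) : u = v := by
  have h0 : Am 1 a (-b) (u - v) = 0 := by rw [Am_sub, h, sub_self]
  have h1 := N72.norm_Am1 hab (u - v)
  rw [h0, norm_zero] at h1
  exact sub_eq_zero.1 (norm_eq_zero.1 h1.symm)

/-- the rotated body is a `Body` -/
theorem body_KV {K0 : Set Pl} {T : ℝ} (hc : Convex ℝ K0) (hsy : ∀ v ∈ K0, -v ∈ K0)
    (hle : LeMax K0 T) (hs : Sym6 K0 T) {a b : ℝ} (hab : a ^ 2 + b ^ 2 = 1) :
    Body (KV K0 a b) T where
  conv := by
    intro u hu v hv x y hx hy hxy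
    show Am 1 a (-b) (x • u + y • v) ∈ K0
    rw [Am_add, Am_smul, Am_smul]
    exact hc hu hv hx hy hxy
  sym := by
    intro v hv
    show Am 1 a (-b) (-v) ∈ K0
    rw [Am_neg]
    exact hsy _ hv
  le := by
    intro q hq hk
    have h1 := hle (toK a b false q) (conv6_toK hab false hq) (fun k => hk k)
    rwa [ar6_toK hab] at h1
  sy := by
    intro q hq hk har k
    have h1 := hs (toK a b false q) (conv6_toK hab false hq) (fun k => hk k)
      (by rw [ar6_toK hab]; exact har) k
    have h2 : Am 1 a (-b) (q (k + 3)) = Am 1 a (-b) (- q k) := by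
      rw [Am_neg]; exact h1
    exact Am1_inj hab h2

/-- sextuples of the body with strictly convex corners -/
structure Mx (K : Set Pl) (T : ℝ) (q : Fin 6 → Pl) : Prop where
  cv : Conv6 q
  mem : ∀ k, q k ∈ K
  ar : ar6 q = T
  st : ∀ k, 0 < cr (q (k + 1) - q k) (q (k + 5) - q k)

/-- normal form of the type -/
def nrm (t : Bool) (q : Fin 6 → Pl) : Fin 6 → Pl := fun k => Jt t (q (if t then -k else k))

lemma mx_nrm {K0 : Set Pl} {T : ℝ} (hst : StrictMax K0 T) {a b : ℝ}
    (hab : a ^ 2 + b ^ 2 = 1) {t : Bool} {q : Fin 6 → Pl} (hq : Conv6 q)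
    (hin : ∀ k, InBody K0 a b t (q k)) (har : ar6 q = T) : Mx (KV K0 a b) T (nrm t q) := by
  have hmem : ∀ k, nrm t q k ∈ KV K0 a b := fun k => hin _
  have hcv : Conv6 (nrm t q) := by
    cases t
    · exact hq
    · refine conv6_neg_of_anti hq fun i j k => ?_
      show cr (Jt true (q (-j)) - Jt true (q (-i))) (Jt true (q (-k)) - Jt true (q (-i))) = _
      rw [← Jt_sub, ← Jt_sub, cr_Jt]; simp
  have har' : ar6 (nrm t q) = T := by
    cases t
    · exact har
    · rw [← har]
      refine ar6_neg_of_anti fun i j k => ?_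
      show cr (Jt true (q (-j)) - Jt true (q (-i))) (Jt true (q (-k)) - Jt true (q (-i))) = _
      rw [← Jt_sub, ← Jt_sub, cr_Jt]; simp
  refine ⟨hcv, hmem, har', fun k => ?_⟩
  have h := hst a b false (fun i => nrm t q (i + k)) hab (conv6_shift hcv k)
    (fun i => hmem (i + k)) (by rw [ar6_shift]; exact har')
  simp only [zero_add] at h
  have e1 : (1 : Fin 6) + k = k + 1 := add_comm _ _
  have e5 : (5 : Fin 6) + k = k + 5 := add_comm _ _
  rwa [e1, e5] at h

/-- a maximal sextuple with vertical edge `q 0 -> q 1` going up -/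
lemma VH_of {K : Set Pl} {T : ℝ} (B : Body K T) {q : Fin 6 → Pl} (M : Mx K T q)
    (m : Fin 6) (h0 : (q (m + 1) - q m) 0 = 0) (h1 : 0 < (q (m + 1) - q m) 1) :
    VH K T (q m) (q (m + 1)) (q (m + 2)) := by
  have sy := B.sy q M.cv M.mem M.ar
  have e3 : q (m + 3) = - q m := sy m
  have e4 : q (m + 1 + 3) = - q (m + 1) := sy (m + 1)
  have e5 : q (m + 2 + 3) = - q (m + 2) := sy (m + 2)
  have f1 : m + 1 + 1 = m + 2 := by rw [add_assoc]; rfl
  have f1' : m + 1 + 5 = m := by rw [add_assoc]; exact add_zero m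
  have f2 : m + 2 + 1 = m + 3 := by rw [add_assoc]; rfl
  have f2' : m + 2 + 5 = m + 1 := by rw [add_assoc]; rfl
  have f3 : m + 3 + 1 = m + 1 + 3 := by rw [add_assoc, add_assoc]; rfl
  have f3' : m + 3 + 5 = m + 2 := by rw [add_assoc]; rfl
  have s1 := M.st (m + 1)
  have s2 := M.st (m + 2)
  have s3 := M.st (m + 3)
  rw [f1, f1'] at s1
  rw [f2, f2', e3] at s2
  rw [f3, f3', e3, e4] at s3
  have har : cr (q m) (q (m + 1)) + cr (q (m + 1)) (q (m + 2)) + cr (q m) (q (m + 2)) = T := by
    have h := ar6_shift q m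
    rw [M.ar] at h
    rw [← h, ar6_six]
    have g0 : (0 : Fin 6) + m = m := zero_add m
    have g1 : (1 : Fin 6) + m = m + 1 := add_comm _ _
    have g2 : (2 : Fin 6) + m = m + 2 := add_comm _ _
    have g3 : (3 : Fin 6) + m = m + 3 := add_comm _ _
    have g4 : (4 : Fin 6) + m = m + 1 + 3 := by rw [add_assoc, add_comm]; rfl
    have g5 : (5 : Fin 6) + m = m + 2 + 3 := by rw [add_assoc, add_comm]; rfl
    rw [g0, g1, g2, g3, g4, g5, e3, e4, e5]
    simp only [cr, PiLp.neg_apply]
    ring
  refine ⟨M.mem _, M.mem _, M.mem _, ?_, ?_, ?_, har, ?_, ?_⟩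
  · simp only [cr, PiLp.sub_apply, PiLp.neg_apply] at s1 ⊢; linarith
  · simp only [cr, PiLp.sub_apply, PiLp.neg_apply] at s2 ⊢; linarith
  · simp only [cr, PiLp.sub_apply, PiLp.neg_apply] at s3 ⊢; linarith
  · simp only [PiLp.sub_apply] at h0; linarith
  · simp only [PiLp.sub_apply] at h1; linarith

/-- the data of a cell with vertical right edge at `m`, going up -/
lemma cell_data {K0 : Set Pl} {T : ℝ} (hc : Convex ℝ K0) (hsy : ∀ v ∈ K0, -v ∈ K0)
    (hle : LeMax K0 T) (hst : StrictMax K0 T) (hs : Sym6 K0 T) {a b : ℝ}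
    (hab : a ^ 2 + b ^ 2 = 1) {t : Bool} {q : Fin 6 → Pl} (hq : Conv6 q)
    (hin : ∀ k, InBody K0 a b t (q k)) (har : ar6 q = T) (m : Fin 6)
    (h0 : (q (m + 1) - q m) 0 = 0) (h1 : 0 < (q (m + 1) - q m) 1) :
    (∀ k, q (k + 3) = - q k) ∧
    ∃ x y z : Pl, VH (KV K0 a b) T x y z ∧
      q (m + 1) - q m = y - x ∧
      q (m + 1) - q (m + 2) = Lt t (y - z) (x + z) ∧
      q (m + 2) - q (m + 3) = Rt t (y - z) (x + z) := by
  have B := body_KV hc hsy hle hs hab
  have M := mx_nrm hst hab hq hin har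
  have sy : ∀ k, q (k + 3) = - q k := by
    intro k
    have := B.sy _ M.cv M.mem M.ar (if t then -k else k)
    cases t
    · exact this
    · have h2 : Jt true (q (-(-k + 3))) = - Jt true (q (- -k)) := this
      have h3 : -(-k + 3) = k + 3 := by
        have : ∀ k : Fin 6, -(-k + 3) = k + 3 := by decide
        exact this k
      rw [h3, neg_neg] at h2
      refine pl_ext ?_ ?_
      · have := congrArg (fun v : Pl => v 0) h2
        simpa [Jt] using this
      · have := congrArg (fun v : Pl => v 1) h2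
        have h4 : -(q (k + 3) 1) = - -(q k 1) := by simpa [Jt] using this
        show q (k + 3) 1 = - q k 1
        linarith
  refine ⟨sy, ?_⟩
  cases t
  · refine ⟨_, _, _, VH_of B M m h0 h1, rfl, rfl, ?_⟩
    show q (m + 2) - q (m + 3) = q m + q (m + 2)
    rw [sy m]; abel
  · -- the reflected sextuple
    have hm1 : -m - 1 + 1 = -m := sub_add_cancel _ _
    have hn : ∀ k, nrm true q k = Jt true (q (-k)) := fun k => rfl
    have k0 : (nrm true q (-m - 1 + 1) - nrm true q (-m - 1)) 0 = 0 := by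
      rw [hn, hn, hm1]
      have e2 : -(-m - 1) = m + 1 := by
        have : ∀ m : Fin 6, -(-m - 1) = m + 1 := by decide
        exact this m
      rw [e2, neg_neg]
      simp only [PiLp.sub_apply] at h0 ⊢
      simp only [Jt, if_true]
      simp
      linarith
    have k1 : 0 < (nrm true q (-m - 1 + 1) - nrm true q (-m - 1)) 1 := by
      rw [hn, hn, hm1]
      have e2 : -(-m - 1) = m + 1 := by
        have : ∀ m : Fin 6, -(-m - 1) = m + 1 := by decide
        exact this m
      rw [e2, neg_neg]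
      simp only [PiLp.sub_apply] at h1 ⊢
      simp only [Jt, if_true]
      simp
      linarith
    have H := VH_of B M (-m - 1) k0 k1
    have e1 : -(-m - 1) = m + 1 := by
      have : ∀ m : Fin 6, -(-m - 1) = m + 1 := by decide
      exact this m
    have e2 : -(-m - 1 + 1) = m := by
      have : ∀ m : Fin 6, -(-m - 1 + 1) = m := by decide
      exact this m
    have e3 : -(-m - 1 + 2) = m + 5 := by
      have : ∀ m : Fin 6, -(-m - 1 + 2) = m + 5 := by decide
      exact this m
    rw [hn, hn, hn, e1, e2, e3] at H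
    have s2 : q (m + 5) = - q (m + 2) := by
      have := sy (m + 2)
      have f : m + 2 + 3 = m + 5 := by rw [add_assoc]; rfl
      rwa [f] at this
    refine ⟨_, _, _, H, ?_, ?_, ?_⟩
    · refine pl_ext ?_ ?_
      · simp only [PiLp.sub_apply] at h0 ⊢
        simp [Jt]
        linarith
      · simp only [PiLp.sub_apply]
        simp [Jt]
        ring
    · rw [s2]
      refine pl_ext ?_ ?_
      · simp [Lt, Jt]
        ring
      · simp [Lt, Jt]
        ring
    · rw [s2, sy m]
      refine pl_ext ?_ ?_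
      · simp [Rt, Jt]
        ring
      · simp [Rt, Jt]

end

end C2305b.Rig.X74
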