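import Pool.Agent.W_c2305b_h74.Exact6

/-! MP_c2305b_co, row 552, module G2: the exact statement for four maximal sextuples around
a vertical edge (final form). -/

namespace C2305b.Rig.X74

open C2305b.Rig O74

noncomputable section

lemma Lt_pos {K : Set Pl} {T : ℝ} {x y z : Pl} (H : VH K T x y z) (t : Bool) :
    0 < Lt t (y - z) (x + z) 0 := by
  obtain ⟨h1, h2⟩ := H.ext
  cases t
  · show 0 < y 0 - z 0
    rw [H.ve]; exact h2
  · exact h1

theorem hang_up {K0 : Set Pl} {T : ℝ} (hc : Convex ℝ K0) (hsy : ∀ v ∈ K0, -v ∈ K0)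
    (hle : LeMax K0 T) (hst : StrictMax K0 T) (hs : Sym6 K0 T) {a b : ℝ}
    (hab : a ^ 2 + b ^ 2 = 1) {t : Fin 4 → Bool} {e : Fin 4 → ℝ} {q : Fin 4 → Fin 6 → Pl}
    (hq : ∀ i, Conv6 (q i)) (hin : ∀ i k, InBody K0 a b (t i) (q i k))
    (har : ∀ i, ar6 (q i) = T)
    (h1 : Sh (e 0) (q 0 5 - q 0 0) = Sh (e 2) (q 2 1 - q 2 0))
    (h2 : Sh (e 2) (q 2 5 - q 2 0) = Sh (e 1) (q 1 1 - q 1 0))
    (h3 : Sh (e 1) (q 1 5 - q 1 0) = Sh (e 0) (q 0 1 - q 0 0))
    (h4 : Sh (e 1) (q 1 2 - q 1 1) = Sh (e 3) (q 3 5 - q 3 0))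
    (h5 : Sh (e 2) (q 2 4 - q 2 5) = Sh (e 3) (q 3 1 - q 3 0))
    (hv : (q 0 1 - q 0 0) 0 = 0) (hup : 0 < (q 0 1 - q 0 0) 1)
    (hg : (q 2 2 - q 2 1) 0 = 0) :
    cr (Sh (e 0) (q 0 0 - q 0 4)) (Sh (e 1) (q 1 2 - q 1 0)) = 0 := by
  have B := body_KV hc hsy hle hs hab
  -- cell A
  obtain ⟨syA, x, y, z, HA, A1, A2, A3⟩ :=
    cell_data hc hsy hle hst hs hab (hq 0) (hin 0) (har 0) 0 hv hup
  have A1 : q 0 1 - q 0 0 = y - x := A1
  have A2 : q 0 1 - q 0 2 = Lt (t 0) (y - z) (x + z) := A2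
  have A3 : q 0 2 - q 0 3 = Rt (t 0) (y - z) (x + z) := A3
  have sA3 : q 0 3 = - q 0 0 := syA 0
  have sA4 : q 0 4 = - q 0 1 := syA 1
  have sA5 : q 0 5 = - q 0 2 := syA 2
  -- cell B
  have g3 : (q 1 5 - q 1 0) 0 = 0 := by
    have := congrArg (fun v : Pl => v 0) h3
    have h : (q 1 5 - q 1 0) 0 = (q 0 1 - q 0 0) 0 := this
    rw [h, hv]
  have g3' : (q 1 5 - q 1 0) 1 = (q 0 1 - q 0 0) 1 := by
    have := congrArg (fun v : Pl => v 1) h3
    have h : e 1 * (q 1 5 - q 1 0) 0 + (q 1 5 - q 1 0) 1 =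
      e 0 * (q 0 1 - q 0 0) 0 + (q 0 1 - q 0 0) 1 := this
    rw [g3, hv] at h
    linarith
  have MB := mx_nrm hst hab (hq 1) (hin 1) (har 1)
  have sym : ∀ i k, q i (k + 3) = - q i k := by
    intro i k
    have M := mx_nrm hst hab (hq i) (hin i) (har i)
    have := B.sy _ M.cv M.mem M.ar (if t i then -k else k)
    cases hti : t i
    · rw [hti] at this
      exact this
    · rw [hti] at this
      have h2 : Jt true (q i (-(-k + 3))) = - Jt true (q i (- -k)) := this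
      have h3 : -(-k + 3) = k + 3 := by
        have : ∀ k : Fin 6, -(-k + 3) = k + 3 := by decide
        exact this k
      rw [h3, neg_neg] at h2
      refine pl_ext ?_ ?_
      · have := congrArg (fun v : Pl => v 0) h2
        simpa [Jt] using this
      · have := congrArg (fun v : Pl => v 1) h2
        have h4 : -(q i (k + 3) 1) = - -(q i k 1) := by simpa [Jt] using this
        show q i (k + 3) 1 = - q i k 1
        linarith
  have sB3 : q 1 3 = - q 1 0 := sym 1 0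
  have sB4 : q 1 4 = - q 1 1 := sym 1 1
  have sB5 : q 1 5 = - q 1 2 := sym 1 2
  have eB : q 1 3 - q 1 2 = q 1 5 - q 1 0 := by rw [sB3, sB5]; abel
  obtain ⟨-, x', y', z', HB, B1, B2, B3⟩ :=
    cell_data hc hsy hle hst hs hab (hq 1) (hin 1) (har 1) 2
      (by show (q 1 3 - q 1 2) 0 = 0; rw [eB, g3])
      (by show 0 < (q 1 3 - q 1 2) 1; rw [eB, g3']; exact hup)
  have B1 : q 1 3 - q 1 2 = y' - x' := B1
  have B2 : q 1 3 - q 1 4 = Lt (t 1) (y' - z') (x' + z') := B2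
  have B3 : q 1 4 - q 1 5 = Rt (t 1) (y' - z') (x' + z') := B3
  -- A and B are the same hexagon
  obtain ⟨rfl, rfl, rfl⟩ := VH.unique B HA HB (Or.inr (by
    have := congrArg (fun v : Pl => v 1) B1
    have h : (q 1 3 - q 1 2) 1 = y' 1 - x' 1 := this
    have := congrArg (fun v : Pl => v 1) A1
    have h' : (q 0 1 - q 0 0) 1 = y 1 - x 1 := this
    rw [← h, ← h', eB, g3']))
  -- cell C
  have sC3 : q 2 3 = - q 2 0 := sym 2 0
  have sC4 : q 2 4 = - q 2 1 := sym 2 1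
  have sC5 : q 2 5 = - q 2 2 := sym 2 2
  have eC : q 2 5 - q 2 4 = - (q 2 2 - q 2 1) := by rw [sC4, sC5]; abel
  have c0 : (q 2 5 - q 2 4) 0 = 0 := by
    rw [eC, PiLp.neg_apply, hg, neg_zero]
  have c2 : (q 2 5 - q 2 0) 0 = (q 1 1 - q 1 0) 0 := by
    have := congrArg (fun v : Pl => v 0) h2
    exact this
  have c3 : 0 < (q 1 1 - q 1 0) 0 := by
    have h : q 1 1 - q 1 0 = q 1 3 - q 1 4 := by rw [sB3, sB4]; abel
    rw [h, B2]
    exact Lt_pos HA _
  have c4 : 0 < (q 2 5 - q 2 4) 1 := by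
    have h := hst a b (t 2) (fun i => q 2 (i + 5)) hab (conv6_shift (hq 2) 5)
      (fun i => hin 2 (i + 5)) (by rw [ar6_shift]; exact har 2)
    have h : 0 < cr (q 2 0 - q 2 5) (q 2 4 - q 2 5) := h
    simp only [cr, PiLp.sub_apply] at h c0 c2 c3 ⊢
    have k1 : q 2 4 0 = q 2 5 0 := by linarith
    rw [k1, sub_self, mul_zero, sub_zero] at h
    have k2 : 0 < q 2 5 0 - q 2 0 0 := by rw [c2]; exact c3
    by_contra hcon
    nlinarith
  obtain ⟨-, x, y, z, HC, C1, C2, C3⟩ :=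
    cell_data hc hsy hle hst hs hab (hq 2) (hin 2) (har 2) 4 c0 c4
  have C1 : q 2 5 - q 2 4 = y - x := C1
  have C2 : q 2 5 - q 2 0 = Lt (t 2) (y - z) (x + z) := C2
  have C3 : q 2 0 - q 2 1 = Rt (t 2) (y - z) (x + z) := C3
  -- cell D
  have sD3 : q 3 3 = - q 3 0 := sym 3 0
  have sD4 : q 3 4 = - q 3 1 := sym 3 1
  have d0 : (q 3 1 - q 3 0) 0 = 0 := by
    have := congrArg (fun v : Pl => v 0) h5
    have h : (q 2 4 - q 2 5) 0 = (q 3 1 - q 3 0) 0 := this
    rw [← h]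
    simp only [PiLp.sub_apply] at c0 ⊢
    linarith
  have d1 : (q 3 1 - q 3 0) 1 = - (q 2 5 - q 2 4) 1 := by
    have := congrArg (fun v : Pl => v 1) h5
    have h : e 2 * (q 2 4 - q 2 5) 0 + (q 2 4 - q 2 5) 1 =
      e 3 * (q 3 1 - q 3 0) 0 + (q 3 1 - q 3 0) 1 := this
    have h' : (q 2 4 - q 2 5) 0 = 0 := by
      simp only [PiLp.sub_apply] at c0 ⊢
      linarith
    rw [d0, h'] at h
    simp only [PiLp.sub_apply] at h ⊢
    linarith
  have eD : q 3 4 - q 3 3 = - (q 3 1 - q 3 0) := by rw [sD3, sD4]; abel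
  obtain ⟨-, x'', y'', z'', HD, D1, D2, D3⟩ :=
    cell_data hc hsy hle hst hs hab (hq 3) (hin 3) (har 3) 3
      (by show (q 3 4 - q 3 3) 0 = 0; rw [eD, PiLp.neg_apply, d0, neg_zero])
      (by show 0 < (q 3 4 - q 3 3) 1; rw [eD, PiLp.neg_apply, d1, neg_neg]; exact c4)
  have D1 : q 3 4 - q 3 3 = y'' - x'' := D1
  have D3 : q 3 5 - q 3 0 = Rt (t 3) (y'' - z'') (x'' + z'') := D3
  obtain ⟨rfl, rfl, rfl⟩ := VH.unique B HC HD (Or.inr (by
    have := congrArg (fun v : Pl => v 1) D1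
    have h : (q 3 4 - q 3 3) 1 = y'' 1 - x'' 1 := this
    have := congrArg (fun v : Pl => v 1) C1
    have h' : (q 2 5 - q 2 4) 1 = y 1 - x 1 := this
    rw [← h, ← h', eD, PiLp.neg_apply, d1, neg_neg]))
  -- the word
  obtain ⟨xw, xu⟩ := HA.ext
  have key := word_num (t 0) (t 1) (t 2) (t 3) (y' - z') (x' + z') (y'' - z'') (x'' + z'')
    (e 0) (e 1) (e 2) (e 3)
    (by show 0 < y' 0 - z' 0; rw [HA.ve]; exact xu) xw
    (by
      intro h
      have h' : y'' 0 - z'' 0 + (x'' 0 + z'' 0) = y' 0 - z' 0 + (x' 0 + z' 0) := h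
      obtain ⟨rfl, rfl, rfl⟩ := VH.unique B HA HC (Or.inl (by
        rw [HA.ve, HC.ve] at h'; linarith))
      exact ⟨rfl, rfl⟩)
    (by
      have k1 : q 0 5 - q 0 0 = - Rt (t 0) (y' - z') (x' + z') := by
        rw [← A3, sA5, sA3]; abel
      have k2 : q 2 1 - q 2 0 = - Rt (t 2) (y'' - z'') (x'' + z'') := by
        rw [← C3]; abel
      rw [k1, k2] at h1
      have s : ∀ (f : ℝ) (v : Pl), Sh f (-v) = - Sh f v := by
        intro f v
        have := Sh_smul f (-1) v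
        simpa using this
      rw [s, s] at h1
      exact neg_injective h1)
    (by
      have k1 : q 1 1 - q 1 0 = q 1 3 - q 1 4 := by rw [sB3, sB4]; abel
      rw [← B2, ← k1, ← C2]; exact h2.symm)
    (by
      have k1 : q 1 2 - q 1 1 = q 1 4 - q 1 5 := by rw [sB5, sB4]; abel
      rw [← B3, ← k1, ← D3]; exact h4)
  have k1 : q 0 0 - q 0 4 = Lt (t 0) (y' - z') (x' + z') + Rt (t 0) (y' - z') (x' + z') := by
    rw [← A2, ← A3, sA4, sA3]; abel
  have k2 : q 1 2 - q 1 0 = Lt (t 1) (y' - z') (x' + z') + Rt (t 1) (y' - z') (x' + z') := by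
    rw [← B2, ← B3, sB5, sB3]; abel
  rw [k1, k2]
  exact key

/-- MODULE G2. Four maximal sextuples (types `t`, shears `e`) around a vertical edge: cells
`A = 0`, `B = 1` share the vertical edge `q 0 0 -> q 0 1`, `C = 2` is the third cell at its end
`q 0 0`, `D = 3` the third cell at `q 1 1`, and the edge `q 2 1 -> q 2 2` of `C` is vertical.
Then the midline vectors of `A` and `B` are parallel. -/
theorem hang {K0 : Set Pl} {T : ℝ} (hc : Convex ℝ K0) (hsy : ∀ v ∈ K0, -v ∈ K0)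
    (hle : LeMax K0 T) (hst : StrictMax K0 T) (hs : Sym6 K0 T) {a b : ℝ}
    (hab : a ^ 2 + b ^ 2 = 1) {t : Fin 4 → Bool} {e : Fin 4 → ℝ} {q : Fin 4 → Fin 6 → Pl}
    (hq : ∀ i, Conv6 (q i)) (hin : ∀ i k, InBody K0 a b (t i) (q i k))
    (har : ∀ i, ar6 (q i) = T)
    (h1 : Sh (e 0) (q 0 5 - q 0 0) = Sh (e 2) (q 2 1 - q 2 0))
    (h2 : Sh (e 2) (q 2 5 - q 2 0) = Sh (e 1) (q 1 1 - q 1 0))
    (h3 : Sh (e 1) (q 1 5 - q 1 0) = Sh (e 0) (q 0 1 - q 0 0))
    (h4 : Sh (e 1) (q 1 2 - q 1 1) = Sh (e 3) (q 3 5 - q 3 0))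
    (h5 : Sh (e 2) (q 2 4 - q 2 5) = Sh (e 3) (q 3 1 - q 3 0))
    (hv : (q 0 1 - q 0 0) 0 = 0) (hg : (q 2 2 - q 2 1) 0 = 0) :
    cr (Sh (e 0) (q 0 0 - q 0 4)) (Sh (e 1) (q 1 2 - q 1 0)) = 0 := by
  rcases lt_trichotomy 0 ((q 0 1 - q 0 0) 1) with h | h | h
  · exact hang_up hc hsy hle hst hs hab hq hin har h1 h2 h3 h4 h5 hv h hg
  · exfalso
    have h6 := hst a b (t 0) (q 0) hab (hq 0) (hin 0) (har 0)
    simp only [cr, ← h, hv, zero_mul, sub_self] at h6
    exact lt_irrefl _ h6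
  · -- everything reflected at the origin
    have nsub : ∀ (i : Fin 4) (k l : Fin 6), -q i k - -q i l = -(q i k - q i l) := by
      intro i k l; abel
    have s : ∀ (f : ℝ) (v : Pl), Sh f (-v) = - Sh f v := by
      intro f v
      have := Sh_smul f (-1) v
      simpa using this
    have hdiff : ∀ (i : Fin 4) (j k l : Fin 6), cr (-q i j - -q i k) (-q i l - -q i k) =
        cr (q i j - q i k) (q i l - q i k) := by
      intro i j k l
      rw [nsub, nsub, cr_neg_left, cr_neg_right, neg_neg]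
    have key := hang_up hc hsy hle hst hs hab (t := t) (e := e) (q := fun i k => - q i k)
      (fun i => (conv6_congr fun j k l => by
        show cr (-q i k - -q i j) (-q i l - -q i j) = _
        exact hdiff i k j l).2 (hq i))
      (fun i k => by
        have h7 := hsy _ (hin i k)
        unfold InBody
        have h8 : Jt (t i) (-q i k) = - Jt (t i) (q i k) := by
          have := Jt_smul (t i) (-1) (q i k)
          simpa using this
        rw [h8, Am_neg]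
        exact h7)
      (fun i => by
        rw [← har i]
        exact ar6_congr fun j k l => hdiff i k j l)
      (by simp only [nsub, s, h1])
      (by simp only [nsub, s, h2])
      (by simp only [nsub, s, h3])
      (by simp only [nsub, s, h4])
      (by simp only [nsub, s, h5])
      (by simp only [nsub, PiLp.neg_apply, hv, neg_zero])
      (by simp only [nsub, PiLp.neg_apply]; linarith)
      (by simp only [nsub, PiLp.neg_apply, hg, neg_zero])
    simp only [nsub, s, cr_neg_left, cr_neg_right, neg_neg] at key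
    exact key

end

end C2305b.Rig.X74
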