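import Pool.Agent.W_c2305b_h35.Counting
import Pool.Agent.W_c2305b_h52.Good

/-! MP_c2305b_co [B]: transport of a tiling by a linear equivalence preserving the cross
product, and the rotations of the (x, y / L) plane acting on frames and needles. -/

namespace C2305b.TL

open Set Module MeasureTheory

noncomputable section

variable {ι : Type*}

/-! ### the image of a tiling -/

open Classical in
/-- The image of a tiling under a linear equivalence. -/
def Tiling.map (T : Tiling ι) (φ : V ≃L[ℝ] V) : Tiling ι where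
  R := φ '' T.R
  P i := φ '' T.P i
  W := T.W.image φ
  convR := T.convR.linear_image (φ : V →ₗ[ℝ] V)
  conv i := (T.conv i).linear_image (φ : V →ₗ[ℝ] V)
  comp i := (T.comp i).image φ.continuous
  nonem i := by
    have h : φ '' interior (T.P i) = interior (φ '' T.P i) :=
      φ.toHomeomorph.image_interior (T.P i)
    rw [← h]
    exact (T.nonem i).image φ
  disj i j hij := by
    have h : ∀ k, φ '' interior (T.P k) = interior (φ '' T.P k) := fun k =>
      φ.toHomeomorph.image_interior (T.P k)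
    show Disjoint (interior (φ '' T.P i)) (interior (φ '' T.P j))
    rw [← h, ← h, Set.disjoint_image_iff φ.injective]
    exact T.disj hij
  union := by rw [← image_iUnion, T.union]
  hull i := by
    rw [Finset.coe_image, ← image_inter φ.injective]
    have h := (φ : V →ₗ[ℝ] V).image_convexHull ((T.W : Set V) ∩ T.P i)
    rw [← T.hull i] at h
    exact h
  vert i v hv hvi := by
    have h : φ '' interior (T.P i) = interior (φ '' T.P i) :=
      φ.toHomeomorph.image_interior (T.P i)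
    rw [← h] at hvi
    obtain ⟨x, hx, rfl⟩ := hvi
    obtain ⟨y, hy, hyx⟩ := Finset.mem_image.1 hv
    rw [φ.injective hyx] at hy
    exact T.vert i x hy hx

namespace Tiling

variable (T : Tiling ι) (φ : V ≃L[ℝ] V)

@[simp] lemma map_R : (T.map φ).R = φ '' T.R := rfl

@[simp] lemma map_P (i : ι) : (T.map φ).P i = φ '' T.P i := rfl

lemma mem_map_W {v : V} : φ v ∈ (T.map φ).W ↔ v ∈ T.W := by
  classical
  have : (T.map φ).W = T.W.image φ := by unfold map; congr!
  rw [this, Finset.mem_image]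
  exact ⟨fun ⟨a, ha, hav⟩ => φ.injective hav ▸ ha, fun h => ⟨v, h, rfl⟩⟩

lemma mem_map_W' {v : V} : v ∈ (T.map φ).W ↔ φ.symm v ∈ T.W := by
  rw [← T.mem_map_W φ, φ.apply_symm_apply]

lemma mem_map_P {i : ι} {v : V} : φ v ∈ (T.map φ).P i ↔ v ∈ T.P i :=
  φ.injective.mem_set_image

lemma mem_map_P' {i : ι} {v : V} : v ∈ (T.map φ).P i ↔ φ.symm v ∈ T.P i := by
  rw [← T.mem_map_P φ, φ.apply_symm_apply]

lemma mem_map_R {v : V} : φ v ∈ (T.map φ).R ↔ v ∈ T.R :=
  φ.injective.mem_set_image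

lemma image_interior (s : Set V) : φ '' interior s = interior (φ '' s) :=
  φ.toHomeomorph.image_interior s

lemma image_openSeg (v w : V) : φ '' openSegment ℝ v w = openSegment ℝ (φ v) (φ w) :=
  image_openSegment ℝ (φ : V →ₗ[ℝ] V).toAffineMap v w

lemma image_seg (v w : V) : φ '' segment ℝ v w = segment ℝ (φ v) (φ w) :=
  image_segment ℝ (φ : V →ₗ[ℝ] V).toAffineMap v w

lemma mem_openSeg {x v w : V} : φ x ∈ openSegment ℝ (φ v) (φ w) ↔ x ∈ openSegment ℝ v w := by
  rw [← image_openSeg, φ.injective.mem_set_image]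

lemma map_mem_seg {x v w : V} : φ x ∈ segment ℝ (φ v) (φ w) ↔ x ∈ segment ℝ v w := by
  rw [← image_seg, φ.injective.mem_set_image]

variable {φ} (hφ : ∀ u v, cr (φ u) (φ v) = cr u v)

include hφ

lemma cr_map_sub (u v x y : V) : cr (φ u - φ v) (φ x - φ y) = cr (u - v) (x - y) := by
  rw [← map_sub, ← map_sub, hφ]

theorem map_E {i : ι} {v w : V} : (T.map φ).E i (φ v) (φ w) ↔ T.E i v w := by
  unfold E
  rw [T.mem_map_W, T.mem_map_W, T.mem_map_P, T.mem_map_P, φ.injective.ne_iff]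
  refine and_congr_right fun _ => and_congr_right fun _ => and_congr_right fun _ =>
    and_congr ?_ ?_
  · constructor
    · intro h x hx
      have := h (φ x) ((T.mem_map_P φ).2 hx)
      rwa [cr_map_sub hφ] at this
    · rintro h _ ⟨x, hx, rfl⟩
      rw [cr_map_sub hφ]
      exact h x hx
  · constructor
    · intro h y hy hys
      exact h (φ y) ((T.mem_map_W φ).2 hy) ((mem_openSeg φ).2 hys)
    · intro h y hy hys
      rw [← φ.apply_symm_apply y, mem_openSeg φ] at hys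
      exact h _ ((T.mem_map_W' φ).1 hy) hys

theorem map_E' {i : ι} {v w : V} : (T.map φ).E i v w ↔ T.E i (φ.symm v) (φ.symm w) := by
  rw [← T.map_E hφ, φ.apply_symm_apply, φ.apply_symm_apply]

theorem map_Bd {v w : V} : (T.map φ).Bd (φ v) (φ w) ↔ T.Bd v w := by
  unfold Bd
  constructor
  · intro h x hx
    have := h (φ x) ((T.mem_map_R φ).2 hx)
    rwa [cr_map_sub hφ] at this
  · rintro h _ ⟨x, hx, rfl⟩
    rw [cr_map_sub hφ]
    exact h x hx

theorem map_Tw {i j : ι} {v w : V} : (T.map φ).Tw i j (φ v) (φ w) ↔ T.Tw i j v w := by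
  unfold Tw
  rw [T.map_E hφ, T.map_E hφ]

theorem map_Tw' {i j : ι} {v w : V} :
    (T.map φ).Tw i j v w ↔ T.Tw i j (φ.symm v) (φ.symm w) := by
  rw [← T.map_Tw hφ, φ.apply_symm_apply, φ.apply_symm_apply]

theorem mem_map_edges {i : ι} {p : V × V} :
    p ∈ (T.map φ).edges i ↔ (φ.symm p.1, φ.symm p.2) ∈ T.edges i := by
  rw [mem_edges, mem_edges, T.map_E' hφ]

theorem mem_map_common {i j : ι} {p : V × V} :
    p ∈ (T.map φ).common i j ↔ (φ.symm p.1, φ.symm p.2) ∈ T.common i j := by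
  rw [mem_common, mem_common, T.map_Tw' hφ]

theorem mem_map_bdEdges {i : ι} {p : V × V} :
    p ∈ (T.map φ).bdEdges i ↔ (φ.symm p.1, φ.symm p.2) ∈ T.bdEdges i := by
  classical
  unfold bdEdges
  rw [Finset.mem_filter, Finset.mem_filter, T.mem_map_edges hφ, ← T.map_Bd hφ,
    φ.apply_symm_apply, φ.apply_symm_apply]

theorem sum_map_edges {M : Type*} [AddCommMonoid M] (i : ι) (f : V × V → M) :
    ∑ p ∈ (T.map φ).edges i, f p = ∑ p ∈ T.edges i, f (φ p.1, φ p.2) := by
  refine Finset.sum_nbij' (fun p => (φ.symm p.1, φ.symm p.2)) (fun p => (φ p.1, φ p.2))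
    ?_ ?_ ?_ ?_ ?_
  · intro p hp; exact (T.mem_map_edges hφ).1 hp
  · intro p hp
    rw [T.mem_map_edges hφ]
    simpa using hp
  · intro p _; simp
  · intro p _; simp
  · intro p _; simp

theorem sum_map_common {M : Type*} [AddCommMonoid M] (i j : ι) (f : V × V → M) :
    ∑ p ∈ (T.map φ).common i j, f p = ∑ p ∈ T.common i j, f (φ p.1, φ p.2) := by
  refine Finset.sum_nbij' (fun p => (φ.symm p.1, φ.symm p.2)) (fun p => (φ p.1, φ p.2))
    ?_ ?_ ?_ ?_ ?_
  · intro p hp; exact (T.mem_map_common hφ).1 hp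
  · intro p hp
    rw [T.mem_map_common hφ]
    simpa using hp
  · intro p _; simp
  · intro p _; simp
  · intro p _; simp

theorem card_map_edges (i : ι) : ((T.map φ).edges i).card = (T.edges i).card := by
  rw [Finset.card_eq_sum_ones, Finset.card_eq_sum_ones, T.sum_map_edges hφ]

theorem card_map_common (i j : ι) : ((T.map φ).common i j).card = (T.common i j).card := by
  rw [Finset.card_eq_sum_ones, Finset.card_eq_sum_ones, T.sum_map_common hφ]

theorem card_map_verts (i : ι) : ((T.map φ).verts i).card = (T.verts i).card := by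
  rw [← card_edges, ← card_edges, T.card_map_edges hφ]

omit hφ in
theorem map_Sharp (h : T.Sharp) : (T.map φ).Sharp := by
  intro w hw
  rcases h _ ((T.mem_map_W' φ).1 hw) with h1 | ⟨k, hk⟩
  · refine Or.inl fun h2 => h1 ?_
    have h3 : interior (T.map φ).R = φ '' interior T.R := by
      rw [map_R, image_interior]
    rw [h3] at h2
    obtain ⟨x, hx, rfl⟩ := h2
    rwa [φ.symm_apply_apply]
  · refine Or.inr ⟨k, ?_⟩
    have h3 : ((T.map φ).P k).extremePoints ℝ = φ '' (T.P k).extremePoints ℝ := by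
      rw [map_P]
      exact (image_extremePoints (𝕜 := ℝ) φ (T.P k)).symm
    rw [h3]
    exact ⟨_, hk, φ.apply_symm_apply w⟩

end Tiling

/-! ### volumes -/

/-- an equivalence preserving the cross product preserves volumes -/
theorem volume_image {φ : V ≃L[ℝ] V} (hφ : ∀ u v, cr (φ u) (φ v) = cr u v) (s : Set V) :
    volume (φ '' s) = volume s := by
  have hlin : (φ : V →ₗ[ℝ] V) = lin2 (φ !₂[1, 0]) (φ !₂[0, 1]) := by
    ext x : 1
    rw [lin2_apply, ← map_smul, ← map_smul, ← map_add]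
    show φ x = _
    congr 1
    ext k
    fin_cases k <;> simp
  have hdet : LinearMap.det (φ : V →ₗ[ℝ] V) = 1 := by
    rw [hlin, lin2_det, hφ]
    simp [cr]
  have h := Measure.addHaar_image_linearMap (volume : Measure V) (φ : V →ₗ[ℝ] V) s
  rw [hdet] at h
  simpa using h

/-! ### rotations -/

/-- The rotation of the `(x, y / L)` plane by minus the angle of `(g1, g2)`. -/
def rotL (L g1 g2 : ℝ) (hL : L ≠ 0) (h : g1 ^ 2 + g2 ^ 2 = 1) : V ≃ₗ[ℝ] V where
  toFun v := !₂[g1 * v 0 + g2 / L * v 1, -(L * g2) * v 0 + g1 * v 1]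
  invFun v := !₂[g1 * v 0 - g2 / L * v 1, L * g2 * v 0 + g1 * v 1]
  map_add' u v := by ext k; fin_cases k <;> simp <;> ring
  map_smul' a v := by ext k; fin_cases k <;> simp <;> ring
  left_inv v := by
    ext k
    fin_cases k
    · simp only [Fin.zero_eta, Matrix.cons_val_zero, Matrix.cons_val_one]
      field_simp
      linear_combination (v 0 * L) * h
    · simp only [Fin.mk_one, Matrix.cons_val_zero, Matrix.cons_val_one]
      field_simp
      linear_combination (v 1) * h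
  right_inv v := by
    ext k
    fin_cases k
    · simp only [Fin.zero_eta, Matrix.cons_val_zero, Matrix.cons_val_one]
      field_simp
      linear_combination (v 0 * L) * h
    · simp only [Fin.mk_one, Matrix.cons_val_zero, Matrix.cons_val_one]
      field_simp
      linear_combination (v 1) * h

/-- The rotation as a continuous linear equivalence. -/
def rot (L g1 g2 : ℝ) (hL : L ≠ 0) (h : g1 ^ 2 + g2 ^ 2 = 1) : V ≃L[ℝ] V :=
  (rotL L g1 g2 hL h).toContinuousLinearEquiv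

section rot

variable {L g1 g2 : ℝ} (hL : L ≠ 0) (h : g1 ^ 2 + g2 ^ 2 = 1)

@[simp] lemma rot_0 (v : V) : rot L g1 g2 hL h v 0 = g1 * v 0 + g2 / L * v 1 := rfl

@[simp] lemma rot_1 (v : V) : rot L g1 g2 hL h v 1 = -(L * g2) * v 0 + g1 * v 1 := rfl

@[simp] lemma rot_symm_0 (v : V) : (rot L g1 g2 hL h).symm v 0 = g1 * v 0 - g2 / L * v 1 := rfl

@[simp] lemma rot_symm_1 (v : V) : (rot L g1 g2 hL h).symm v 1 = L * g2 * v 0 + g1 * v 1 := rfl

theorem cr_rot (u v : V) : cr (rot L g1 g2 hL h u) (rot L g1 g2 hL h v) = cr u v := by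
  unfold cr
  rw [rot_0, rot_0, rot_1, rot_1]
  field_simp
  linear_combination (u 0 * v 1 - u 1 * v 0) * L * h

/-- The form `x ^ 2 + (y / L) ^ 2` is invariant. -/
theorem form_rot (u v : V) :
    rot L g1 g2 hL h u 0 * rot L g1 g2 hL h v 0 +
      rot L g1 g2 hL h u 1 * rot L g1 g2 hL h v 1 / L ^ 2 =
    u 0 * v 0 + u 1 * v 1 / L ^ 2 := by
  rw [rot_0, rot_0, rot_1, rot_1]
  field_simp
  linear_combination (u 0 * v 0 * L ^ 2 + u 1 * v 1) * h

end rot

/-- A chord can be made horizontal. -/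
theorem exists_rot {L : ℝ} (hL : 0 < L) {e : V} (he : e ≠ 0) :
    ∃ g1 g2 : ℝ, ∃ h : g1 ^ 2 + g2 ^ 2 = 1, rot L g1 g2 hL.ne' h e 1 = 0 ∧
      0 < rot L g1 g2 hL.ne' h e 0 := by
  have hpos : 0 < e 0 ^ 2 + (e 1 / L) ^ 2 := by
    by_contra hc
    have h1 : e 0 ^ 2 = 0 := by nlinarith [sq_nonneg (e 0), sq_nonneg (e 1 / L)]
    have h2 : (e 1 / L) ^ 2 = 0 := by nlinarith [sq_nonneg (e 0), sq_nonneg (e 1 / L)]
    apply he
    have h3 : e 0 = 0 := by simpa using h1
    have h4 : e 1 = 0 := by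
      have : e 1 / L = 0 := by simpa using h2
      rcases div_eq_zero_iff.1 this with h | h
      · exact h
      · exact absurd h hL.ne'
    ext k
    fin_cases k
    · simpa using h3
    · simpa using h4
  set n := √(e 0 ^ 2 + (e 1 / L) ^ 2) with hn
  have hn0 : 0 < n := Real.sqrt_pos.2 hpos
  have hn2 : n ^ 2 = e 0 ^ 2 + (e 1 / L) ^ 2 := Real.sq_sqrt hpos.le
  have hunit : (e 0 / n) ^ 2 + (e 1 / L / n) ^ 2 = 1 := by
    rw [div_pow, div_pow, ← add_div, ← hn2]
    exact div_self (by positivity)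
  refine ⟨e 0 / n, e 1 / L / n, hunit, ?_, ?_⟩
  · rw [rot_1]
    field_simp
    ring
  · rw [rot_0]
    have : e 0 / n * e 0 + e 1 / L / n / L * e 1 = n := by
      have h1 : e 0 / n * e 0 + e 1 / L / n / L * e 1 = (e 0 ^ 2 + (e 1 / L) ^ 2) / n := by
        field_simp
      rw [h1, ← hn2]
      field_simp
    rw [this]
    exact hn0

end

end C2305b.TL

namespace C2305bB

open C2305b.TL

noncomputable section

open Classical in
/-- The frame seen after the rotation `rot L g1 g2`. -/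
def Fr.rot (F : Fr) (g1 g2 : ℝ) (h : g1 ^ 2 + g2 ^ 2 = 1) : Fr :=
  if hc : 0 ≤ F.c * g1 + F.S * g2 then
    ⟨F.c * g1 + F.S * g2, F.S * g1 - F.c * g2, by
      have := F.nrm
      calc (F.c * g1 + F.S * g2) ^ 2 + (F.S * g1 - F.c * g2) ^ 2
          = (F.c ^ 2 + F.S ^ 2) * (g1 ^ 2 + g2 ^ 2) := by ring
        _ = 1 := by rw [this, h, one_mul], hc⟩
  else
    ⟨-(F.c * g1 + F.S * g2), -(F.S * g1 - F.c * g2), by
      have := F.nrm
      calc (-(F.c * g1 + F.S * g2)) ^ 2 + (-(F.S * g1 - F.c * g2)) ^ 2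
          = (F.c ^ 2 + F.S ^ 2) * (g1 ^ 2 + g2 ^ 2) := by ring
        _ = 1 := by rw [this, h, one_mul], by linarith [not_le.1 hc]⟩

lemma Fr.rot_cases (F : Fr) (g1 g2 : ℝ) (h : g1 ^ 2 + g2 ^ 2 = 1) :
    ∃ ε : ℝ, (ε = 1 ∨ ε = -1) ∧ (F.rot g1 g2 h).c = ε * (F.c * g1 + F.S * g2) ∧
      (F.rot g1 g2 h).S = ε * (F.S * g1 - F.c * g2) := by
  unfold Fr.rot
  split_ifs with hc
  · exact ⟨1, Or.inl rfl, by simp, by simp⟩
  · exact ⟨-1, Or.inr rfl, by simp, by simp⟩

theorem sn_rot (F G : Fr) (g1 g2 : ℝ) (h : g1 ^ 2 + g2 ^ 2 = 1) :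
    sn (F.rot g1 g2 h) (G.rot g1 g2 h) = sn F G := by
  obtain ⟨a, ha, h1, h2⟩ := F.rot_cases g1 g2 h
  obtain ⟨b, hb, h3, h4⟩ := G.rot_cases g1 g2 h
  unfold sn
  rw [h1, h2, h3, h4]
  have e : a * (F.c * g1 + F.S * g2) * (b * (G.S * g1 - G.c * g2)) -
      a * (F.S * g1 - F.c * g2) * (b * (G.c * g1 + G.S * g2)) =
      a * b * ((g1 ^ 2 + g2 ^ 2) * (F.c * G.S - F.S * G.c)) := by ring
  rw [e, h, one_mul, abs_mul]
  have hab : |a * b| = 1 := by
    rcases ha with rfl | rfl <;> rcases hb with rfl | rfl <;> norm_num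
  rw [hab, one_mul]

theorem mis_rot (L : ℝ) (F G : Fr) (g1 g2 : ℝ) (h : g1 ^ 2 + g2 ^ 2 = 1) :
    mis L (F.rot g1 g2 h) (G.rot g1 g2 h) = mis L F G := by
  unfold mis; rw [sn_rot]

theorem fits_rot {L R g1 g2 : ℝ} (hL : L ≠ 0) (F : Fr) (h : g1 ^ 2 + g2 ^ 2 = 1) (v : V) :
    Fits L (F.rot g1 g2 h) R (C2305b.TL.rot L g1 g2 hL h v 0) (C2305b.TL.rot L g1 g2 hL h v 1) ↔
      Fits L F R (v 0) (v 1) := by
  obtain ⟨a, ha, h1, h2⟩ := F.rot_cases g1 g2 h
  unfold Fits
  rw [h1, h2, rot_0, rot_1]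
  have e1 : a * (F.c * g1 + F.S * g2) * (g1 * v 0 + g2 / L * v 1) +
      a * (F.S * g1 - F.c * g2) * (-(L * g2) * v 0 + g1 * v 1) / L =
      a * (F.c * v 0 + F.S * v 1 / L) := by
    field_simp
    linear_combination a * (F.c * v 0 * L + F.S * v 1) * h
  have e2 : a * (F.c * g1 + F.S * g2) * (-(L * g2) * v 0 + g1 * v 1) -
      L * (a * (F.S * g1 - F.c * g2)) * (g1 * v 0 + g2 / L * v 1) =
      a * (F.c * v 1 - L * F.S * v 0) := by
    field_simp
    linear_combination a * (F.c * v 1 - L * F.S * v 0) * h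
  rw [e1, e2]
  have ha2 : a ^ 2 = 1 := by rcases ha with rfl | rfl <;> norm_num
  rw [mul_pow, mul_pow, ha2, one_mul, one_mul]

end

end C2305bB

namespace C2305bH52

open C2305b.TL C2305bB

/-- The needle of the rotated frame. -/
theorem needle_rot {L ρ g1 g2 : ℝ} (hL : L ≠ 0) (F : Fr) (h : g1 ^ 2 + g2 ^ 2 = 1) (o z : V) :
    C2305b.TL.rot L g1 g2 hL h z ∈
      needle L (F.rot g1 g2 h) (C2305b.TL.rot L g1 g2 hL h o) ρ ↔ z ∈ needle L F o ρ := by
  show Fits L (F.rot g1 g2 h) ρ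
    ((C2305b.TL.rot L g1 g2 hL h z - C2305b.TL.rot L g1 g2 hL h o) 0)
    ((C2305b.TL.rot L g1 g2 hL h z - C2305b.TL.rot L g1 g2 hL h o) 1) ↔
    Fits L F ρ ((z - o) 0) ((z - o) 1)
  rw [← map_sub]
  exact fits_rot hL F h (z - o)

theorem image_needle {L ρ g1 g2 : ℝ} (hL : L ≠ 0) (F : Fr) (h : g1 ^ 2 + g2 ^ 2 = 1) (o : V) :
    C2305b.TL.rot L g1 g2 hL h '' needle L F o ρ =
      needle L (F.rot g1 g2 h) (C2305b.TL.rot L g1 g2 hL h o) ρ := by
  ext z
  constructor
  · rintro ⟨y, hy, rfl⟩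
    exact (needle_rot hL F h o y).2 hy
  · intro hz
    refine ⟨(C2305b.TL.rot L g1 g2 hL h).symm z, ?_, by simp⟩
    rw [← needle_rot hL F h, ContinuousLinearEquiv.apply_symm_apply]
    exact hz

end C2305bH52
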